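import Pool.Agent.Lib.RM26.Defs

namespace Pool.Agent.Lib.RM26

open Set Filter
open scoped ContDiff Topology

variable {n : ℕ}

abbrev Sm (w : E n → ℝ) : Prop := ContDiff ℝ ∞ w

abbrev Mat (n : ℕ) : Type := Fin n → Fin n → E n → ℝ

noncomputable def op (A : Mat n) (w : E n → ℝ) (x : E n) : ℝ :=
  ∑ i, ∑ j, pd i (fun y => A i j y * pd j w y) x

noncomputable def Gam (A : Mat n) (φ ψ : E n → ℝ) (x : E n) : ℝ :=
  ∑ i, ∑ j, A i j x * pd i φ x * pd j ψ x

lemma divOp_eq (A : Mat n) (c w : E n → ℝ) (x : E n) :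
    divOp A c w x = -op A w x + c x * w x := rfl

lemma Sm.d {w : E n → ℝ} (h : Sm w) (x : E n) : DifferentiableAt ℝ w x :=
  h.differentiable (by simp) x

lemma Sm.pd {w : E n → ℝ} (h : Sm w) (i : Fin n) : Sm (pd i w) := by
  have h1 : ContDiff ℝ ∞ (fderiv ℝ w) := h.fderiv_right (m := ∞) (by simp)
  exact h1.clm_apply contDiff_const

lemma pd_congr {φ ψ : E n → ℝ} {x : E n} (h : φ =ᶠ[𝓝 x] ψ) (i : Fin n) :
    pd i φ =ᶠ[𝓝 x] pd i ψ := by
  filter_upwards [h.eventuallyEq_nhds] with y hy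
  simp only [pd, hy.fderiv_eq]

lemma pd_add {φ ψ : E n → ℝ} {x : E n} (h1 : DifferentiableAt ℝ φ x) (h2 : DifferentiableAt ℝ ψ x)
    (i : Fin n) : pd i (fun y => φ y + ψ y) x = pd i φ x + pd i ψ x := by
  simp only [pd]; rw [fderiv_fun_add h1 h2]; rfl

lemma pd_mul {φ ψ : E n → ℝ} {x : E n} (h1 : DifferentiableAt ℝ φ x) (h2 : DifferentiableAt ℝ ψ x)
    (i : Fin n) : pd i (fun y => φ y * ψ y) x = φ x * pd i ψ x + ψ x * pd i φ x := by
  simp only [pd]; rw [fderiv_fun_mul h1 h2]; simp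

lemma pd_const (c : ℝ) (x : E n) (i : Fin n) : pd i (fun _ => c) x = 0 := by
  simp [pd]

lemma pd_comp {F : ℝ → ℝ} {φ : E n → ℝ} {x : E n} (hF : DifferentiableAt ℝ F (φ x))
    (h : DifferentiableAt ℝ φ x) (i : Fin n) :
    pd i (fun y => F (φ y)) x = deriv F (φ x) * pd i φ x := by
  have := hF.hasDerivAt.comp_hasFDerivAt x h.hasFDerivAt
  simp only [pd]
  rw [show (fun y => F (φ y)) = F ∘ φ from rfl, this.fderiv]
  simp

section
variable {A : Mat n} (hA : ∀ i j, Sm (A i j))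
include hA

lemma op_sm {w : E n → ℝ} (h : Sm w) : Sm (op A w) :=
  ContDiff.sum fun i _ => ContDiff.sum fun j _ => Sm.pd ((hA i j).mul (h.pd j)) i

lemma Gam_sm {φ ψ : E n → ℝ} (h1 : Sm φ) (h2 : Sm ψ) : Sm (Gam A φ ψ) :=
  ContDiff.sum fun i _ => ContDiff.sum fun j _ => ((hA i j).mul (h1.pd i)).mul (h2.pd j)

lemma op_add {φ ψ : E n → ℝ} (h1 : Sm φ) (h2 : Sm ψ) (x : E n) :
    op A (fun y => φ y + ψ y) x = op A φ x + op A ψ x := by
  simp only [op, ← Finset.sum_add_distrib]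
  refine Finset.sum_congr rfl fun i _ => Finset.sum_congr rfl fun j _ => ?_
  rw [← pd_add (Sm.d ((hA i j).mul (h1.pd j)) x) (Sm.d ((hA i j).mul (h2.pd j)) x)]
  congr 1
  funext y
  rw [pd_add (h1.d y) (h2.d y)]; ring

lemma op_mul (hs : ∀ i j, A i j = A j i) {φ ψ : E n → ℝ} (h1 : Sm φ) (h2 : Sm ψ) (x : E n) :
    op A (fun y => φ y * ψ y) x = φ x * op A ψ x + ψ x * op A φ x + 2 * Gam A φ ψ x := by
  have e : ∀ i j, pd i (fun y => A i j y * pd j (fun y => φ y * ψ y) y) x =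
      φ x * pd i (fun y => A i j y * pd j ψ y) x + ψ x * pd i (fun y => A i j y * pd j φ y) x +
        (A i j x * pd i φ x * pd j ψ x + A j i x * pd j φ x * pd i ψ x) := by
    intro i j
    have s1 : Sm (fun y => A i j y * pd j ψ y) := (hA i j).mul (h2.pd j)
    have s2 : Sm (fun y => A i j y * pd j φ y) := (hA i j).mul (h1.pd j)
    have : (fun y => A i j y * pd j (fun y => φ y * ψ y) y) =
        fun y => φ y * (A i j y * pd j ψ y) + ψ y * (A i j y * pd j φ y) := by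
      funext y; rw [pd_mul (h1.d y) (h2.d y)]; ring
    rw [this, pd_add (Sm.d (h1.mul s1) x) (Sm.d (h2.mul s2) x), pd_mul (h1.d x) (s1.d x),
      pd_mul (h2.d x) (s2.d x), hs j i]
    ring
  simp only [op, e, Finset.sum_add_distrib, ← Finset.mul_sum, Gam]
  rw [Finset.sum_comm (f := fun i j => A j i x * pd j φ x * pd i ψ x)]
  ring

lemma op_comp {F : ℝ → ℝ} (hF : ContDiff ℝ ∞ F) {φ : E n → ℝ} (h : Sm φ) (x : E n) :
    op A (fun y => F (φ y)) x =
      deriv F (φ x) * op A φ x + deriv (deriv F) (φ x) * Gam A φ φ x := by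
  have hF1 : ContDiff ℝ ∞ (deriv F) := hF.iterate_deriv 1
  have dF : ∀ t, DifferentiableAt ℝ F t := fun t => hF.differentiable (by simp) t
  have dF1 : ∀ t, DifferentiableAt ℝ (deriv F) t := fun t => hF1.differentiable (by simp) t
  have e : ∀ i j, pd i (fun y => A i j y * pd j (fun y => F (φ y)) y) x =
      deriv F (φ x) * pd i (fun y => A i j y * pd j φ y) x +
        deriv (deriv F) (φ x) * (A i j x * pd i φ x * pd j φ x) := by
    intro i j
    have s2 : Sm (fun y => A i j y * pd j φ y) := (hA i j).mul (h.pd j)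
    have s3 : Sm (fun y => deriv F (φ y)) := hF1.comp h
    have : (fun y => A i j y * pd j (fun y => F (φ y)) y) =
        fun y => deriv F (φ y) * (A i j y * pd j φ y) := by
      funext y; rw [pd_comp (dF _) (h.d y)]; ring
    rw [this, pd_mul (s3.d x) (s2.d x), pd_comp (dF1 _) (h.d x)]
    ring
  simp only [op, e, Finset.sum_add_distrib, ← Finset.mul_sum, Gam]

lemma op_cmul (c : ℝ) {φ : E n → ℝ} (h : Sm φ) (x : E n) :
    op A (fun y => c * φ y) x = c * op A φ x := by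
  have := op_comp hA (F := fun t => c * t) (contDiff_const.mul contDiff_id) h x
  rw [this]
  have h1 : deriv (fun t : ℝ => c * t) = fun _ => c := by
    funext t; simp
  rw [h1]; simp

lemma op_pow (k : ℕ) {φ : E n → ℝ} (h : Sm φ) (x : E n) :
    op A (fun y => φ y ^ (k + 2)) x =
      (k + 2) * φ x ^ (k + 1) * op A φ x + (k + 2) * (k + 1) * φ x ^ k * Gam A φ φ x := by
  have := op_comp hA (F := fun t => t ^ (k + 2)) (contDiff_id.pow _) h x
  rw [this]
  have h1 : deriv (fun t : ℝ => t ^ (k + 2)) = fun t => ((k : ℝ) + 2) * t ^ (k + 1) := by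
    funext t; simp
  have h2 : deriv (fun t : ℝ => ((k : ℝ) + 2) * t ^ (k + 1)) =
      fun t => ((k : ℝ) + 2) * ((k + 1) * t ^ k) := by
    funext t
    rw [deriv_const_mul _ (by fun_prop)]; simp
  rw [h1, h2]; ring

end

lemma op_congr (A : Mat n) {φ ψ : E n → ℝ} {x : E n} (h : φ =ᶠ[𝓝 x] ψ) :
    op A φ =ᶠ[𝓝 x] op A ψ := by
  filter_upwards [h.eventuallyEq_nhds] with y hy
  refine Finset.sum_congr rfl fun i _ => Finset.sum_congr rfl fun j _ => ?_
  refine (pd_congr ?_ i).eq_of_nhds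
  filter_upwards [pd_congr hy j] with z hz
  rw [hz]

lemma op_zero (A : Mat n) (x : E n) : op A (fun _ => 0) x = 0 := by
  simp [op, pd_const]

lemma Gam_sq (A : Mat n) {φ ψ : E n → ℝ} (h2 : Sm ψ) (x : E n) :
    Gam A φ (fun y => ψ y ^ 2) x = 2 * ψ x * Gam A φ ψ x := by
  simp only [Gam, Finset.mul_sum]
  refine Finset.sum_congr rfl fun i _ => Finset.sum_congr rfl fun j _ => ?_
  rw [pd_comp (F := fun t => t ^ 2) (by fun_prop) (h2.d x)]
  simp; ring

lemma Gam_pos {D : Set (E n)} {A : Mat n} (hA : Elliptic D A) {x : E n} (hx : x ∈ closure D)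
    {φ : E n → ℝ} (h : fderiv ℝ φ x ≠ 0) : 0 < Gam A φ φ x := by
  obtain ⟨κ, hκ, h1⟩ := hA.elliptic
  refine lt_of_lt_of_le (mul_pos hκ ?_) (h1 x hx fun i => pd i φ x)
  by_contra hc
  have h0 : ∑ i, pd i φ x ^ 2 = 0 :=
    le_antisymm (not_lt.1 hc) (Finset.sum_nonneg fun i _ => sq_nonneg _)
  rw [Finset.sum_eq_zero_iff_of_nonneg fun i _ => sq_nonneg _] at h0
  apply h
  ext v
  have hv : v = ∑ i, v i • EuclideanSpace.single i (1 : ℝ) := by
    ext j; simp [Pi.single_apply]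
  show fderiv ℝ φ x v = 0
  rw [hv, map_sum]
  refine Finset.sum_eq_zero fun i _ => ?_
  have := pow_eq_zero_iff two_ne_zero |>.1 (h0 i (Finset.mem_univ i))
  simp only [pd] at this
  rw [map_smul, this, smul_zero]

lemma Gam_nonneg {D : Set (E n)} {A : Mat n} (hA : Elliptic D A) {x : E n} (hx : x ∈ closure D)
    (φ : E n → ℝ) : 0 ≤ Gam A φ φ x := by
  obtain ⟨κ, hκ, h1⟩ := hA.elliptic
  exact le_trans (mul_nonneg hκ.le (Finset.sum_nonneg fun i _ => sq_nonneg _))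
    (h1 x hx fun i => pd i φ x)

/-- The operator with a potential. -/
noncomputable def sop (A : Mat n) (Q : E n → ℝ) (w : E n → ℝ) (x : E n) : ℝ :=
  op A w x - Q x * w x

section
variable {A : Mat n} (hA : ∀ i j, Sm (A i j)) {Q : E n → ℝ}
include hA

lemma sop_sm (hQ : Sm Q) {w : E n → ℝ} (h : Sm w) : Sm (sop A Q w) :=
  (op_sm hA h).sub (hQ.mul h)

lemma sop_add {φ ψ : E n → ℝ} (h1 : Sm φ) (h2 : Sm ψ) (x : E n) :
    sop A Q (fun y => φ y + ψ y) x = sop A Q φ x + sop A Q ψ x := by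
  simp only [sop, op_add hA h1 h2]; ring

lemma sop_cmul (c : ℝ) {φ : E n → ℝ} (h : Sm φ) (x : E n) :
    sop A Q (fun y => c * φ y) x = c * sop A Q φ x := by
  simp only [sop, op_cmul hA c h]; ring

end

lemma sop_congr (A : Mat n) (Q : E n → ℝ) {φ ψ : E n → ℝ} {x : E n} (h : φ =ᶠ[𝓝 x] ψ) :
    sop A Q φ =ᶠ[𝓝 x] sop A Q ψ := by
  filter_upwards [h, op_congr A h] with y h1 h2
  simp only [sop, h1, h2]

lemma sop_zero (A : Mat n) (Q : E n → ℝ) {φ : E n → ℝ} {x : E n} (h : x ∉ tsupport φ) :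
    sop A Q φ x = 0 := by
  have h1 : φ =ᶠ[𝓝 x] fun _ => 0 := notMem_tsupport_iff_eventuallyEq.1 h
  rw [(sop_congr A Q h1).eq_of_nhds]
  simp [sop, op_zero]

end Pool.Agent.Lib.RM26
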