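import Pool.Agent.Lib.RM26.Tools

namespace Pool.Agent.Lib.RM26

open Set Filter Metric Polynomial
open scoped ContDiff Topology

variable {n : ℕ}

lemma glue1 : deriv expNegInvGlue = fun t => t⁻¹ ^ 2 * expNegInvGlue t := by
  funext t
  have := (expNegInvGlue.hasDerivAt_polynomial_eval_inv_mul 1 t).deriv
  simpa using this

lemma glue2 (t : ℝ) :
    deriv (deriv expNegInvGlue) t = (t⁻¹ ^ 4 - 2 * t⁻¹ ^ 3) * expNegInvGlue t := by
  have := (expNegInvGlue.hasDerivAt_polynomial_eval_inv_mul (X ^ 2) t).deriv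
  rw [glue1]
  simp only [eval_pow, eval_X, eval_mul, eval_sub, derivative_X_pow, eval_C] at this
  rw [this]
  push_cast
  ring

lemma Gam_cmul (A : Mat n) (c : ℝ) {φ : E n → ℝ} (h : Sm φ) (x : E n) :
    Gam A (fun y => c * φ y) (fun y => c * φ y) x = c ^ 2 * Gam A φ φ x := by
  have e : ∀ i, pd i (fun y => c * φ y) x = c * pd i φ x := fun i => by
    rw [pd_mul (differentiableAt_const c) (h.d x), pd_const]; ring
  simp only [Gam, Finset.mul_sum, e]
  refine Finset.sum_congr rfl fun i _ => Finset.sum_congr rfl fun j _ => ?_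
  ring

lemma bump {D : Set (E n)} {A : Mat n} (hA : Elliptic D A) {Q s : E n → ℝ} (hQ : Sm Q) (hs : Sm s)
    {K : Set (E n)} (hK : IsCompact K) (hKD : K ⊆ closure D) (h1 : ∀ x ∈ K, fderiv ℝ s x ≠ 0) :
    ∃ θ : E n → ℝ, Sm θ ∧ (∀ x, 0 ≤ θ x) ∧ (∀ x, s x ≤ 0 → θ x = 0 ∧ sop A Q θ x = 0) ∧
      ∀ x ∈ K, 0 < s x → 0 < sop A Q θ x := by
  have sA := hA.smooth
  have sG : Sm (Gam A s s) := Gam_sm sA hs hs
  have so : Sm (op A s) := op_sm sA hs
  obtain ⟨M, hM0, hM⟩ := big hK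
    (f := fun y => -(|s y ^ 2 * op A s y - 2 * s y * Gam A s s y| + |Q y * s y ^ 4|))
    (g := Gam A s s)
    (by
      have := hs.continuous
      have := sG.continuous
      have := so.continuous
      have := hQ.continuous
      fun_prop)
    sG.continuous.continuousOn fun x hx => Gam_pos hA (hKD hx) (h1 x hx)
  set ε : ℝ := (M + 1)⁻¹ with hε
  have ε0 : 0 < ε := by positivity
  have ε1 : ε * (M + 1) = 1 := inv_mul_cancel₀ (by positivity)
  have ε2 : ε ≤ 1 := by nlinarith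
  have sφ : Sm (fun y => ε * s y) := contDiff_const.mul hs
  have key : ∀ x, sop A Q (fun y => expNegInvGlue (ε * s y)) x = expNegInvGlue (ε * s x) *
      ((ε * s x)⁻¹ ^ 2 * (ε * op A s x) +
        ((ε * s x)⁻¹ ^ 4 - 2 * (ε * s x)⁻¹ ^ 3) * (ε ^ 2 * Gam A s s x) - Q x) := by
    intro x
    simp only [sop]
    rw [op_comp sA expNegInvGlue.contDiff sφ, glue2, glue1, op_cmul sA ε hs, Gam_cmul A ε hs]
    ring
  refine ⟨fun y => expNegInvGlue (ε * s y), expNegInvGlue.contDiff.comp sφ,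
    fun x => expNegInvGlue.nonneg _, fun x hx => ?_, fun x hx h => ?_⟩
  · have := expNegInvGlue.zero_of_nonpos (mul_nonpos_of_nonneg_of_nonpos ε0.le hx)
    exact ⟨this, by rw [key, this, zero_mul]⟩
  · rw [key]
    have p0 : 0 < ε * s x := mul_pos ε0 h
    refine mul_pos (expNegInvGlue.pos_of_pos p0) ?_
    have e : (ε * s x)⁻¹ ^ 2 * (ε * op A s x) +
        ((ε * s x)⁻¹ ^ 4 - 2 * (ε * s x)⁻¹ ^ 3) * (ε ^ 2 * Gam A s s x) - Q x =
        (ε * s x)⁻¹ ^ 4 * ε ^ 2 * (Gam A s s x +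
          ε * (s x ^ 2 * op A s x - 2 * s x * Gam A s s x) - ε * (ε * (Q x * s x ^ 4))) := by
      field_simp
      ring
    rw [e]
    refine mul_pos (by positivity) ?_
    have a1 := hM (M + 1) (by linarith) x hx
    have a2 := neg_abs_le (s x ^ 2 * op A s x - 2 * s x * Gam A s s x)
    have a3 : ε * (Q x * s x ^ 4) ≤ |Q x * s x ^ 4| :=
      (mul_le_mul_of_nonneg_left (le_abs_self _) ε0.le).trans
        (mul_le_of_le_one_left (abs_nonneg _) ε2)
    have a4 := mul_pos ε0 a1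
    have a5 := mul_le_mul_of_nonneg_left a2 ε0.le
    have a6 := mul_le_mul_of_nonneg_left a3 ε0.le
    have a7 : ε * ((M + 1) * Gam A s s x) = Gam A s s x := by rw [← mul_assoc, ε1, one_mul]
    simp only [mul_add, mul_neg] at a4 a5
    rw [← mul_add] at a4
    nlinarith

lemma sq_sm (q : E n) : Sm (fun y => ‖y - q‖ ^ 2) :=
  (contDiff_norm_sq ℝ).comp (contDiff_id.sub contDiff_const)

lemma sq_fderiv {q x : E n} (h : x ≠ q) (a b : ℝ) (ha : a ≠ 0) :
    fderiv ℝ (fun y => a * ‖y - q‖ ^ 2 + b) x ≠ 0 := by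
  have h1 := ((((hasFDerivAt_id (𝕜 := ℝ) x).sub_const q).norm_sq).const_mul a).add_const b
  intro hc
  have h2 := h1.fderiv
  simp only [id] at h2
  rw [hc] at h2
  have h3 := congrArg (fun l : E n →L[ℝ] ℝ => l (x - q)) h2
  simp [ha, sub_eq_zero] at h3
  have h4 : inner ℝ (x - q) (x - q) = 0 := by rw [inner_sub_left, h3, sub_self]
  exact h (sub_eq_zero.1 (inner_self_eq_zero.1 h4))

lemma ballBump {D : Set (E n)} {A : Mat n} (hA : Elliptic D A) {Q : E n → ℝ} (hQ : Sm Q) {q : E n}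
    {r R : ℝ} (hr : 0 < r) (hR : 0 < R) (hD : closedBall q R ⊆ closure D) :
    ∃ θ : E n → ℝ, Sm θ ∧ (∀ x, 0 ≤ θ x) ∧ (∀ x ∉ ball q R, θ x = 0 ∧ sop A Q θ x = 0) ∧
      ∀ x ∈ ball q R, x ∉ ball q r → 0 < sop A Q θ x := by
  obtain ⟨θ, h1, h2, h3, h4⟩ := bump hA hQ (s := fun y => -1 * ‖y - q‖ ^ 2 + R ^ 2)
    ((contDiff_const.mul (sq_sm q)).add contDiff_const)
    ((isCompact_closedBall q R).diff (isOpen_ball (x := q) (ε := r))) (sdiff_subset.trans hD)
    fun x hx => sq_fderiv (fun h => hx.2 (by rw [h]; exact mem_ball_self hr)) _ _ (by norm_num)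
  refine ⟨θ, h1, h2, fun x hx => h3 x ?_, fun x hx hx' => h4 x ⟨ball_subset_closedBall hx, hx'⟩ ?_⟩
  · rw [mem_ball, dist_eq_norm, not_lt] at hx
    nlinarith
  · rw [mem_ball, dist_eq_norm] at hx
    nlinarith [norm_nonneg (x - q)]

lemma chain {D : Set (E n)} {A : Mat n} (hA : Elliptic D A) {Q g : E n → ℝ} (hQ : Sm Q) (hg : Sm g)
    {Ω B K : Set (E n)} (hΩ : IsOpen Ω) (hc : IsPreconnected Ω) (hD : Ω ⊆ D) (hB : IsOpen B)
    (hne : (Ω ∩ B).Nonempty) (hK : IsCompact K) (hKΩ : K ⊆ Ω) :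
    ∃ (Θ : E n → ℝ) (C : Set (E n)), Sm Θ ∧ (∀ x, 0 ≤ Θ x) ∧ IsCompact C ∧ C ⊆ Ω ∧
      (∀ x ∉ C, Θ x = 0) ∧ (∀ x ∉ B, 0 ≤ sop A Q Θ x) ∧
      ∀ x ∈ K, x ∉ B → 0 < g x + sop A Q Θ x := by
  have sA := hA.smooth
  let P : Set (E n) → Prop := fun s => ∃ (Θ : E n → ℝ) (C : Set (E n)), Sm Θ ∧ (∀ x, 0 ≤ Θ x) ∧
    IsCompact C ∧ C ⊆ Ω ∧ (∀ x ∉ C, Θ x = 0) ∧ (∀ x ∉ B, 0 ≤ sop A Q Θ x) ∧
      ∀ x ∈ s, x ∉ B → 0 < sop A Q Θ x
  have P0 : P B := ⟨fun _ => 0, ∅, contDiff_const, fun _ => le_rfl, isCompact_empty,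
    empty_subset _, fun _ _ => rfl, fun x _ => by simp [sop, op_zero], fun x h h' => (h' h).elim⟩
  have Pm : ∀ ⦃s t⦄, s ⊆ t → P t → P s := fun s t hst ⟨Θ, C, h1, h2, h3, h4, h5, h6, h7⟩ =>
    ⟨Θ, C, h1, h2, h3, h4, h5, h6, fun x hx => h7 x (hst hx)⟩
  have all : Ω ⊆ {x | ∃ s ∈ 𝓝 x, P s} := by
    refine hc.subset_of_closure_inter_subset ?_ ?_ ?_
    · rw [isOpen_iff_mem_nhds]
      rintro x ⟨s, hs, hP⟩
      filter_upwards [eventually_mem_nhds_iff.2 hs] with y hy using ⟨s, hy, hP⟩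
    · obtain ⟨x, h1, h2⟩ := hne
      exact ⟨x, h1, B, hB.mem_nhds h2, P0⟩
    · rintro x ⟨hx, hxΩ⟩
      obtain ⟨δ, δ0, hδ⟩ := Metric.isOpen_iff.1 hΩ x hxΩ
      obtain ⟨q, ⟨s, hs, Θ, C, h1, h2, h3, h4, h5, h6, h7⟩, hq⟩ :=
        Metric.mem_closure_iff.1 hx (δ / 3) (by positivity)
      obtain ⟨r, r0, hr⟩ := Metric.nhds_basis_closedBall.mem_iff.1 hs
      have sub : closedBall q (δ / 3) ⊆ Ω := fun y hy => hδ (by
        rw [mem_closedBall] at hy
        rw [mem_ball]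
        linarith [dist_triangle y q x, dist_comm x q])
      obtain ⟨θ, k1, k2, k3, k4⟩ := ballBump hA hQ r0 (show 0 < δ / 3 by positivity)
        (sub.trans (hD.trans subset_closure))
      obtain ⟨M, M0, hM⟩ := big ((isCompact_closedBall q r).diff hB)
        (sop_sm sA hQ k1).continuous.continuousOn (sop_sm sA hQ h1).continuous.continuousOn
        fun y hy => h7 y (hr hy.1) hy.2
      have s2 : Sm (fun y => M * Θ y) := contDiff_const.mul h1
      have e : ∀ y, sop A Q (fun y => θ y + M * Θ y) y = sop A Q θ y + M * sop A Q Θ y :=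
        fun y => by rw [sop_add sA k1 s2, sop_cmul sA M h1]
      have pos : ∀ y ∈ ball q (δ / 3), y ∉ B → 0 < sop A Q (fun y => θ y + M * Θ y) y := by
        intro y hy hyB
        rw [e]
        by_cases h : y ∈ ball q r
        · exact hM M le_rfl y ⟨ball_subset_closedBall h, hyB⟩
        · exact add_pos_of_pos_of_nonneg (k4 y hy h) (mul_nonneg M0.le (h6 y hyB))
      refine ⟨ball q (δ / 3), isOpen_ball.mem_nhds hq, fun y => θ y + M * Θ y,
        closedBall q (δ / 3) ∪ C, k1.add s2, fun y => add_nonneg (k2 y) (mul_nonneg M0.le (h2 y)),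
        (isCompact_closedBall _ _).union h3, union_subset sub h4, fun y hy => ?_,
        fun y hy => ?_, pos⟩
      · rw [mem_union, not_or] at hy
        simp [(k3 y fun h => hy.1 (ball_subset_closedBall h)).1, h5 y hy.2]
      · by_cases h : y ∈ ball q (δ / 3)
        · exact (pos y h hy).le
        · rw [e, (k3 y h).2, zero_add]
          exact mul_nonneg M0.le (h6 y hy)
  obtain ⟨Θ, C, h1, h2, h3, h4, h5, h6, h7⟩ : P K := by
    refine hK.induction_on (Pm (empty_subset _) P0) Pm ?_ fun x hx => ?_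
    · rintro s t ⟨Θ, C, h1, h2, h3, h4, h5, h6, h7⟩ ⟨Φ, C', k1, k2, k3, k4, k5, k6, k7⟩
      refine ⟨fun y => Θ y + Φ y, C ∪ C', h1.add k1, fun y => add_nonneg (h2 y) (k2 y),
        h3.union k3, union_subset h4 k4, fun y hy => ?_, fun y hy => ?_, fun y hy hy' => ?_⟩
      · rw [mem_union, not_or] at hy
        simp [h5 y hy.1, k5 y hy.2]
      · rw [sop_add sA h1 k1]
        exact add_nonneg (h6 y hy) (k6 y hy)
      · rw [sop_add sA h1 k1]
        rcases hy with hy | hy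
        · exact add_pos_of_pos_of_nonneg (h7 y hy hy') (k6 y hy')
        · exact add_pos_of_nonneg_of_pos (h6 y hy') (k7 y hy hy')
    · obtain ⟨s, hs, hP⟩ := all (hKΩ hx)
      exact ⟨s, mem_nhdsWithin_of_mem_nhds hs, hP⟩
  obtain ⟨M, M0, hM⟩ := big (hK.diff hB) hg.continuous.continuousOn
    (sop_sm sA hQ h1).continuous.continuousOn fun y hy => h7 y hy.1 hy.2
  refine ⟨fun y => M * Θ y, C, contDiff_const.mul h1, fun y => mul_nonneg M0.le (h2 y), h3, h4,
    fun y hy => by simp [h5 y hy], fun y hy => ?_, fun y hy hy' => ?_⟩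
  · rw [sop_cmul sA M h1]; exact mul_nonneg M0.le (h6 y hy)
  · rw [sop_cmul sA M h1]; exact hM M le_rfl y ⟨hy, hy'⟩

lemma shell (hn : 2 ≤ n) (p : E n) {R R' : ℝ} (hR : 0 ≤ R) :
    IsPreconnected (ball p R' \ closedBall p R) := by
  have h1 : 1 < Module.rank ℝ (E n) := by
    rw [← Module.finrank_eq_rank, finrank_euclideanSpace_fin]
    exact_mod_cast hn
  have h2 := ((isPreconnected_sphere h1 (0 : E n) 1).prod (isPreconnected_Ioo (a := R) (b := R'))).image
    (fun z : E n × ℝ => p + z.2 • z.1) (by fun_prop)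
  convert h2 using 1
  ext y
  simp only [Set.mem_sdiff, mem_ball, mem_closedBall, dist_eq_norm, not_le, mem_image, mem_prod,
    mem_sphere, sub_zero, mem_Ioo, Prod.exists]
  constructor
  · rintro ⟨a1, a2⟩
    have a3 : 0 < ‖y - p‖ := lt_of_le_of_lt hR a2
    refine ⟨‖y - p‖⁻¹ • (y - p), ‖y - p‖, ⟨?_, a2, a1⟩, ?_⟩
    · rw [norm_smul, norm_inv, norm_norm, inv_mul_cancel₀ a3.ne']
    · rw [smul_smul, mul_inv_cancel₀ a3.ne', one_smul, add_sub_cancel]
  · rintro ⟨z, t, ⟨a1, a2, a3⟩, rfl⟩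
    rw [add_sub_cancel_left, norm_smul, a1, mul_one, Real.norm_eq_abs,
      abs_of_nonneg (hR.trans a2.le)]
    exact ⟨a3, a2⟩

lemma conn (hn : 2 ≤ n) {D : Set (E n)} (hD : IsPreconnected D) {p : E n} {R R' : ℝ} (hR : 0 ≤ R)
    (hR' : R < R') (hb : ball p R' ⊆ D) : IsPreconnected (D \ closedBall p R) := by
  have hS := isPreconnected_iff_subset_of_disjoint.1 (shell hn p (R' := R') hR)
  have sub : ball p R' \ closedBall p R ⊆ D \ closedBall p R := sdiff_subset_sdiff_left hb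
  have key : ∀ u v : Set (E n), IsOpen u → IsOpen v → D \ closedBall p R ⊆ u ∪ v →
      D \ closedBall p R ∩ (u ∩ v) = ∅ → ball p R' \ closedBall p R ⊆ u →
      D \ closedBall p R ⊆ u := by
    intro u v hu hv h1 h2 h3
    have h4 := isPreconnected_iff_subset_of_disjoint.1 hD (u ∪ ball p R') (v \ closedBall p R)
      (hu.union isOpen_ball) (hv.sdiff isClosed_closedBall) (fun y hy => by
        by_cases h : y ∈ closedBall p R
        · exact Or.inl (Or.inr (closedBall_subset_ball hR' h))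
        · rcases h1 ⟨hy, h⟩ with h' | h'
          · exact Or.inl (Or.inl h')
          · exact Or.inr ⟨h', h⟩) (by
        rw [eq_empty_iff_forall_notMem] at h2 ⊢
        rintro y ⟨a1, a2 | a2, a3, a4⟩
        · exact h2 y ⟨⟨a1, a4⟩, a2, a3⟩
        · exact h2 y ⟨⟨a1, a4⟩, h3 ⟨a2, a4⟩, a3⟩)
    rcases h4 with h4 | h4
    · rintro y ⟨a1, a2⟩
      rcases h4 a1 with h | h
      · exact h
      · exact h3 ⟨h, a2⟩
    · exact ((h4 (hb (mem_ball_self (hR.trans_lt hR')))).2 (mem_closedBall_self hR)).elim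
  rw [isPreconnected_iff_subset_of_disjoint]
  intro u v hu hv h1 h2
  rcases hS u v hu hv (sub.trans h1)
    (eq_empty_of_subset_empty (h2 ▸ inter_subset_inter_left _ sub)) with h | h
  · exact Or.inl (key u v hu hv h1 h2 h)
  · exact Or.inr (key v u hv hu (by rwa [union_comm]) (by rwa [inter_comm v]) h)

end Pool.Agent.Lib.RM26
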