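import Mathlib

namespace Pool.Agent.Lib.RM26

open MeasureTheory
open scoped ContDiff Topology

/-- Euclidean `n`-space. -/
abbrev E (n : ℕ) : Type := EuclideanSpace ℝ (Fin n)

variable {n : ℕ}

/-- The derivative of `w` at `x` in the direction of the `i`-th coordinate. -/
noncomputable def pd (i : Fin n) (w : E n → ℝ) (x : E n) : ℝ :=
  fderiv ℝ w x (EuclideanSpace.single i 1)

/-- The divergence form operator `L w = - ∑ i j, ∂ i (A i j * ∂ j w) + c * w`. -/
noncomputable def divOp (A : Fin n → Fin n → E n → ℝ) (c : E n → ℝ) (w : E n → ℝ) (x : E n) : ℝ :=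
  -(∑ i, ∑ j, pd i (fun y => A i j y * pd j w y) x) + c x * w x

/-- A bounded domain with smooth boundary: near each boundary point it is the set where a smooth
function with non-zero differential is positive. -/
structure SmoothDomain (D : Set (E n)) : Prop where
  isOpen : IsOpen D
  bounded : Bornology.IsBounded D
  connected : IsConnected D
  boundary : ∀ p ∈ frontier D, ∃ U ∈ 𝓝 p, ∃ ρ : E n → ℝ, ContDiff ℝ ∞ ρ ∧ fderiv ℝ ρ p ≠ 0 ∧
    ∀ x ∈ U, (x ∈ D ↔ 0 < ρ x)

/-- A smooth symmetric coefficient matrix which is uniformly elliptic on the closure of `D`. -/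
structure Elliptic (D : Set (E n)) (A : Fin n → Fin n → E n → ℝ) : Prop where
  smooth : ∀ i j, ContDiff ℝ ∞ (A i j)
  symm : ∀ i j, A i j = A j i
  elliptic : ∃ κ : ℝ, 0 < κ ∧ ∀ x ∈ closure D, ∀ ξ : Fin n → ℝ,
    κ * ∑ i, ξ i ^ 2 ≤ ∑ i, ∑ j, A i j x * ξ i * ξ j

/-- `divOp A c` is strictly positive as a Dirichlet operator on `D`. -/
def Positive (D : Set (E n)) (A : Fin n → Fin n → E n → ℝ) (c : E n → ℝ) : Prop :=
  ∃ γ : ℝ, 0 < γ ∧ ∀ w : E n → ℝ, ContDiffOn ℝ 2 w D → ContinuousOn w (closure D) →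
    (∀ x ∈ frontier D, w x = 0) → IntegrableOn (divOp A c w) D →
    γ * ∫ x in D, w x ^ 2 ≤ ∫ x in D, divOp A c w x * w x

/-- A smooth function on `n`-space which is positive on the closure of `D`. -/
def PosCoeff (D : Set (E n)) (a : E n → ℝ) : Prop :=
  ContDiff ℝ ∞ a ∧ ∀ x ∈ closure D, 0 < a x

end Pool.Agent.Lib.RM26
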