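import Pool.Agent.Lib.RM26.Calc

namespace Pool.Agent.Lib.RM26

open Set Filter MeasureTheory
open scoped ContDiff Topology

variable {n : ℕ}

lemma int_pd {G : E n → ℝ} (hG : ContDiff ℝ 1 G) (hc : HasCompactSupport G) (i : Fin n) :
    Integrable (pd i G) ∧ ∫ x, pd i G x = 0 := by
  have h1 : Integrable (pd i G) :=
    ((hG.continuous_fderiv one_ne_zero).clm_apply continuous_const).integrable_of_hasCompactSupport
      (hc.fderiv_apply ℝ _)
  refine ⟨h1, ?_⟩
  have := integral_mul_fderiv_eq_neg_fderiv_mul_of_integrable (μ := volume)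
    (f := fun _ : E n => (1 : ℝ)) (g := G) (v := EuclideanSpace.single i 1) (by simp)
    (by simp only [one_mul]; exact h1) (by simpa using hG.continuous.integrable_of_hasCompactSupport hc)
    (fun _ _ => differentiableAt_const _) fun x _ => hG.differentiable one_ne_zero x
  simpa [pd] using this

lemma trunc {ε : ℝ} (hε : 0 < ε) : ∃ θ : ℝ → ℝ, ContDiff ℝ 1 θ ∧ (∀ t, 0 ≤ deriv θ t) ∧
    (∀ t, |t| < ε → θ t = 0) ∧ ∀ t, |t - θ t| ≤ 2 * ε := by
  have hσ : ContDiff ℝ 1 Real.smoothTransition := Real.smoothTransition.contDiff (n := 1)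
  refine ⟨fun t => t * Real.smoothTransition (t ^ 2 / ε ^ 2 - 1), by fun_prop, fun t => ?_,
    fun t ht => ?_, fun t => ?_⟩
  · have h1 : HasDerivAt (fun t : ℝ => t ^ 2 / ε ^ 2 - 1) (2 * t / ε ^ 2) t := by
      simpa using ((hasDerivAt_pow 2 t).div_const (ε ^ 2)).sub_const 1
    have h2 := (hasDerivAt_id t).mul
      ((hσ.differentiable one_ne_zero (t ^ 2 / ε ^ 2 - 1)).hasDerivAt.comp t h1)
    have h3 := h2.deriv
    have h4 : 0 ≤ deriv Real.smoothTransition (t ^ 2 / ε ^ 2 - 1) :=
      Real.smoothTransition.monotone.deriv_nonneg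
    have h5 := Real.smoothTransition.nonneg (t ^ 2 / ε ^ 2 - 1)
    refine le_of_le_of_eq ?_ h3.symm
    simp only [id, Function.comp, one_mul]
    have : t * (deriv Real.smoothTransition (t ^ 2 / ε ^ 2 - 1) * (2 * t / ε ^ 2)) =
        deriv Real.smoothTransition (t ^ 2 / ε ^ 2 - 1) * (2 * t ^ 2 / ε ^ 2) := by ring
    rw [this]; positivity
  · have : t ^ 2 < ε ^ 2 := sq_lt_sq' (abs_lt.1 ht).1 (abs_lt.1 ht).2
    beta_reduce
    rw [Real.smoothTransition.zero_of_nonpos, mul_zero]
    rw [sub_nonpos, div_le_one (by positivity)]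
    exact this.le
  · beta_reduce
    by_cases h : |t| ≤ 2 * ε
    · have h1 := Real.smoothTransition.nonneg (t ^ 2 / ε ^ 2 - 1)
      have h2 := Real.smoothTransition.le_one (t ^ 2 / ε ^ 2 - 1)
      rw [← mul_one_sub, abs_mul, abs_of_nonneg (sub_nonneg.2 h2)]
      exact (mul_le_of_le_one_right (abs_nonneg _) (by linarith)).trans h
    · rw [Real.smoothTransition.one_of_one_le, mul_one, sub_self, abs_zero]
      · positivity
      · rw [le_sub_iff_add_le, le_div_iff₀ (by positivity), ← sq_abs t]
        nlinarith [not_le.1 h]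

lemma positive_of {D : Set (E n)} (hD : IsOpen D) (hb : Bornology.IsBounded D) {A : Mat n}
    (hA : Elliptic D A) {c : E n → ℝ} (hc : PosCoeff D c) : Positive D A c := by
  have hK : IsCompact (closure D) := hb.isCompact_closure
  have mD := hD.measurableSet
  obtain ⟨γ, γ0, hγ⟩ := hK.exists_forall_le' hc.1.continuous.continuousOn hc.2
  refine ⟨γ, γ0, fun w w2 w0 wS wi => ?_⟩
  have int : ∀ {g : E n → ℝ}, ContinuousOn g (closure D) → IntegrableOn g D := fun h =>
    (h.integrableOn_compact hK).mono_set subset_closure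
  have cw : ContinuousOn (fun x => c x * w x) (closure D) := hc.1.continuous.continuousOn.mul w0
  have io : IntegrableOn (op A w) D := by
    refine ((int cw).sub wi).congr (Eventually.of_forall fun x => ?_)
    simp [divOp_eq]
  have iow : IntegrableOn (fun x => op A w x * w x) D :=
    io.mul_continuousOn_of_subset w0 mD hK subset_closure
  have s1 : ∀ i j, ∀ y ∈ D, ContDiffAt ℝ 1 (fun y => A i j y * pd j w y) y := fun i j y hy =>
    ((hA.smooth i j).of_le (by simp)).contDiffAt.mul
      (((w2.contDiffAt (hD.mem_nhds hy)).fderiv_right (m := 1) (by norm_num)).clm_apply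
        contDiffAt_const)
  have s2 : ∀ y ∈ D, ContDiffAt ℝ 1 w y := fun y hy =>
    (w2.contDiffAt (hD.mem_nhds hy)).of_le (by norm_num)
  have key : ∀ ε : ℝ, 0 < ε → ∫ x in D, op A w x * w x ≤ 2 * ε * ∫ x in D, |op A w x| := by
    intro ε hε
    obtain ⟨θ, t1, t2, t3, t4⟩ := trunc hε
    set C : Set (E n) := closure D ∩ (fun y => |w y|) ⁻¹' Ici ε with hC
    have Cc : IsCompact C :=
      hK.of_isClosed_subset (w0.abs.preimage_isClosed_of_isClosed isClosed_closure isClosed_Ici)
        inter_subset_left
    have CD : C ⊆ D := fun y hy => by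
      by_contra h
      have h1 : w y = 0 := wS y (by rw [hD.frontier_eq]; exact ⟨hy.1, h⟩)
      have h2 : ε ≤ |w y| := hy.2
      rw [h1, abs_zero] at h2
      linarith
    set G : Fin n → Fin n → E n → ℝ := fun i j =>
      D.indicator fun y => θ (w y) * (A i j y * pd j w y) with hG
    have G0 : ∀ i j, ∀ y ∉ C, G i j y = 0 := fun i j y hy => by
      by_cases h : y ∈ D
      · simp only [hG, indicator_of_mem h]
        rw [t3 _ (not_le.1 fun a => hy ⟨subset_closure h, a⟩), zero_mul]
      · exact indicator_of_notMem h _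
    have G1 : ∀ i j, ∀ y ∉ D, G i j =ᶠ[𝓝 y] fun _ => 0 := fun i j y hy => by
      filter_upwards [Cc.isClosed.isOpen_compl.mem_nhds fun h => hy (CD h)] with z hz
      exact G0 i j z hz
    have G2 : ∀ i j, ∀ y ∈ D, G i j =ᶠ[𝓝 y] fun y => θ (w y) * (A i j y * pd j w y) :=
      fun i j y hy => by
        filter_upwards [hD.mem_nhds hy] with z hz using indicator_of_mem hz _
    have G3 : ∀ i j, Integrable (pd i (G i j)) ∧ ∫ x, pd i (G i j) x = 0 := fun i j => by
      refine int_pd (contDiff_iff_contDiffAt.2 fun y => ?_) (HasCompactSupport.intro Cc (G0 i j)) i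
      by_cases h : y ∈ D
      · exact ((t1.contDiffAt.comp y (s2 y h)).mul (s1 i j y h)).congr_of_eventuallyEq (G2 i j y h)
      · exact contDiffAt_const.congr_of_eventuallyEq (G1 i j y h)
    have G4 : ∀ i j, ∫ x in D, pd i (G i j) x = 0 := fun i j => by
      rw [setIntegral_eq_integral_of_forall_compl_eq_zero fun y hy => by
        rw [(pd_congr (G1 i j y hy) i).eq_of_nhds, pd_const], (G3 i j).2]
    have G5 : ∀ y ∈ D, ∑ i, ∑ j, pd i (G i j) y =
        θ (w y) * op A w y + deriv θ (w y) * Gam A w w y := fun y hy => by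
      simp only [op, Gam, Finset.mul_sum, ← Finset.sum_add_distrib]
      refine Finset.sum_congr rfl fun i _ => Finset.sum_congr rfl fun j _ => ?_
      have d1 := (s2 y hy).differentiableAt one_ne_zero
      have d2 := t1.differentiable one_ne_zero (w y)
      rw [(pd_congr (G2 i j y hy) i).eq_of_nhds, pd_mul (φ := fun y => θ (w y)) (d2.comp y d1)
        ((s1 i j y hy).differentiableAt one_ne_zero), pd_comp d2 d1]
      ring
    have iG : ∀ i, IntegrableOn (fun y => ∑ j, pd i (G i j) y) D := fun i =>
      integrable_finsetSum _ fun j _ => (G3 i j).1.integrableOn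
    have ia : IntegrableOn (fun y => 2 * ε * |op A w y|) D := io.abs.const_mul _
    have := setIntegral_mono_on (iow.sub ia) (integrable_finsetSum Finset.univ fun i _ => iG i) mD
      fun y hy => by
        rw [G5 y hy]
        have a1 := mul_nonneg (t2 (w y)) (Gam_nonneg hA (subset_closure hy) w)
        have a2 : op A w y * (w y - θ (w y)) ≤ |op A w y| * (2 * ε) :=
          (le_abs_self _).trans (by
            rw [abs_mul]; exact mul_le_mul_of_nonneg_left (t4 _) (abs_nonneg _))
        simp only [Pi.sub_apply]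
        nlinarith
    rw [integral_finsetSum _ fun i _ => iG i] at this
    simp only [integral_finsetSum _ fun j _ => (G3 _ j).1.integrableOn, G4, Finset.sum_const_zero,
      Pi.sub_apply] at this
    rw [integral_sub iow ia, integral_const_mul] at this
    linarith
  have neg : ∫ x in D, op A w x * w x ≤ 0 := by
    have J : 0 ≤ ∫ x in D, |op A w x| := integral_nonneg fun _ => abs_nonneg _
    refine le_of_forall_pos_le_add fun δ hδ => ?_
    refine (key (δ / (2 * ((∫ x in D, |op A w x|) + 1))) (by positivity)).trans ?_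
    rw [zero_add, ← mul_div_assoc, div_mul_eq_mul_div, div_le_iff₀ (by positivity)]
    nlinarith
  have i2 : IntegrableOn (fun x => c x * w x * w x) D := int (cw.mul w0)
  have e : ∫ x in D, divOp A c w x * w x =
      (∫ x in D, c x * w x * w x) - ∫ x in D, op A w x * w x := by
    rw [← integral_sub i2 iow]
    congr 1
    funext x
    rw [divOp_eq]; ring
  have := setIntegral_mono_on ((int (w0.pow 2)).const_mul γ) i2 mD fun y hy => by
    have := mul_le_mul_of_nonneg_right (hγ y (subset_closure hy)) (sq_nonneg (w y))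
    simp only [Pi.pow_apply]
    nlinarith
  rw [integral_const_mul] at this
  rw [e]
  simp only [Pi.pow_apply] at this
  linarith

end Pool.Agent.Lib.RM26
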