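import Pool.Agent.Lib.RM26.Main
import Pool.Agent.Lib.RM26.Pos

namespace Pool.Agent.Lib.RM26

open Set Filter Metric
open scoped ContDiff Topology

variable {n : ℕ}

lemma frontier_compact {D : Set (E n)} (hD : SmoothDomain D) : IsCompact (frontier D) :=
  hD.bounded.isCompact_closure.of_isClosed_subset isClosed_frontier frontier_subset_closure

theorem every (hn : 2 ≤ n) {D : Set (E n)} (hD : SmoothDomain D) {A B : Mat n} (hA : Elliptic D A)
    (hB : Elliptic D B) :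
    ∃ c d a b u v : E n → ℝ, PosCoeff D c ∧ PosCoeff D d ∧ Positive D A c ∧ Positive D B d ∧
      PosCoeff D a ∧ PosCoeff D b ∧ ContDiff ℝ ∞ u ∧ ContDiff ℝ ∞ v ∧
      (∀ x ∈ D, divOp A c u x + a x * v x = 0 ∧ -(b x * u x) + divOp B d v x = 0) ∧
      (∀ x ∈ frontier D, u x = 0 ∧ v x = 0) ∧ ∃ x ∈ D, u x ≠ 0 ∧ v x ≠ 0 := by
  obtain ⟨ρ, sρ, ρ0, ρ1⟩ := defining hD
  have s0 : Sm (fun _ : E n => (0 : ℝ)) := contDiff_const
  have s1 : Sm (fun _ : E n => (1 : ℝ)) := contDiff_const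
  obtain ⟨e₁, H₁, se₁, sH₁, pe₁, pH₁, eH₁⟩ := nf hA s0 sρ s0 (frontier_compact hD)
    frontier_subset_closure (fun x hx => (ρ1 x hx).1) (fun x hx => (ρ1 x hx).2) (σ := 1) (one_mul 1)
  obtain ⟨e₂, H₂, se₂, sH₂, pe₂, pH₂, eH₂⟩ := nf hB s0 sρ s0 (frontier_compact hD)
    frontier_subset_closure (fun x hx => (ρ1 x hx).1) (fun x hx => (ρ1 x hx).2) (σ := 1) (one_mul 1)
  obtain ⟨u, v, α, β, γ, δ, su, sv, k1, k2, k3, k4, k5, k6, x, hx, k7, k8⟩ :=
    main hn hD hA hB s0 s0 s1 s1 sρ se₁ se₂ sH₁ sH₂ (fun y hy => ⟨ρ0 y hy, one_pos, one_pos⟩)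
      (fun y _ => ⟨pe₁ y, pe₂ y⟩) (fun y hy => ⟨by simpa using pH₁ y hy, by simpa using pH₂ y hy⟩)
      (by filter_upwards [eH₁] with y hy _; rw [hy]; ring)
      (by filter_upwards [eH₂] with y hy _; rw [hy]; ring)
  refine ⟨α, δ, β, γ, u, fun y => -1 * v y, k1, k4, positive_of hD.isOpen hD.bounded hA k1,
    positive_of hD.isOpen hD.bounded hB k4, k2, k3, su, contDiff_const.mul sv, fun y hy => ?_,
    fun y hy => ?_, x, hx, k7.ne', by simpa using k8.ne'⟩
  · have := k5 y hy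
    simp only [sop] at this
    rw [divOp_eq, divOp_eq, op_cmul hB.smooth _ sv]
    constructor <;> linarith [this.1, this.2]
  · have := k6.self_of_nhdsSet y hy
    simp [this.1, this.2, (ρ1 y hy).1]

theorem ball_ok (hn : 2 ≤ n) : SmoothDomain (ball (0 : E n) 1) ∧
    IsConnected (frontier (ball (0 : E n) 1)) ∧
    Elliptic (ball (0 : E n) 1) fun i j _ => if i = j then 1 else 0 := by
  have h1 : 1 < Module.rank ℝ (E n) := by
    rw [← Module.finrank_eq_rank, finrank_euclideanSpace_fin]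
    exact_mod_cast hn
  refine ⟨⟨isOpen_ball, isBounded_ball, (convex_ball _ _).isConnected (nonempty_ball.2 one_pos),
    fun p hp => ⟨univ, univ_mem, fun y => -1 * ‖y - 0‖ ^ 2 + 1,
      (contDiff_const.mul (sq_sm 0)).add contDiff_const, sq_fderiv ?_ _ _ (by norm_num),
      fun x _ => ?_⟩⟩, ?_, fun _ _ => contDiff_const, fun i j => by simp [eq_comm], 1, one_pos,
      fun x _ ξ => by simp [sq]⟩
  · rw [frontier_ball _ one_ne_zero] at hp
    exact ne_of_mem_sphere hp one_ne_zero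
  · rw [mem_ball, dist_eq_norm]
    have := norm_nonneg (x - 0)
    constructor <;> intro h <;> nlinarith
  · rw [frontier_ball _ one_ne_zero]
    exact isConnected_sphere h1 _ zero_le_one

end Pool.Agent.Lib.RM26
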