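import Pool.Agent.Lib.RM26.One

namespace Pool.Agent.Lib.RM26

open Set Filter Metric
open scoped ContDiff Topology

variable {n : ℕ}

lemma alg {F U V : ℝ} (hU : U ≠ 0) (h : 0 < U * F ∨ U * V < 0) :
    ∃ c a : ℝ, 0 < c ∧ 0 < a ∧ F = c * U + a * V := by
  obtain ⟨t, t0, ht⟩ : ∃ t : ℝ, 0 < t ∧ 0 < U * F - t * (U * V) := by
    rcases h with h | h
    · refine ⟨U * F / (|U * V| + 1), by positivity, ?_⟩
      rw [sub_pos, div_mul_eq_mul_div, div_lt_iff₀ (by positivity)]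
      exact mul_lt_mul_of_pos_left ((le_abs_self _).trans_lt (lt_add_one _)) h
    · refine ⟨(|U * F| + 1) / -(U * V), div_pos (by positivity) (neg_pos.2 h), ?_⟩
      rw [div_neg, neg_mul, div_mul_cancel₀ _ h.ne]
      linarith [neg_abs_le (U * F)]
  refine ⟨(U * F - t * (U * V)) / U ^ 2, t, div_pos ht (by positivity), t0, ?_⟩
  field_simp
  ring

/-- Local solvability of `F = c U + a V` with positive smooth coefficients. -/
def Loc (F U V : E n → ℝ) (x : E n) : Prop :=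
  ∃ O ∈ 𝓝 x, ∃ c a : E n → ℝ, ContDiffOn ℝ ∞ c O ∧ ContDiffOn ℝ ∞ a O ∧ 0 < c x ∧ 0 < a x ∧
    ∀ y ∈ O, F y = c y * U y + a y * V y

lemma loc {F U V : E n → ℝ} (hF : Sm F) (hU : Sm U) (hV : Sm V) {x : E n} (h0 : U x ≠ 0) {c a : ℝ}
    (hc : 0 < c) (ha : 0 < a) (h : F x = c * U x + a * V x) : Loc F U V x := by
  refine ⟨{y | U y ≠ 0}, hU.continuous.continuousAt.eventually_ne h0,
    fun y => (F y - a * V y) / U y, fun _ => a,
    (hF.sub (contDiff_const.mul hV)).contDiffOn.div hU.contDiffOn fun y hy => hy,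
    contDiffOn_const, ?_, ha, fun y hy => ?_⟩
  · show 0 < (F x - a * V x) / U x
    rw [h, add_sub_cancel_right, mul_div_cancel_right₀ _ h0]; exact hc
  · have : U y ≠ 0 := hy
    field_simp
    ring

lemma Loc.swap {F U V : E n → ℝ} {x : E n} (h : Loc F U V x) : Loc F V U x := by
  obtain ⟨O, hO, c, a, h1, h2, h3, h4, h5⟩ := h
  exact ⟨O, hO, a, c, h2, h1, h4, h3, fun y hy => by rw [h5 y hy, add_comm]⟩

lemma half {D : Set (E n)} (hD : IsOpen D) {m F U V η ζ e e' H ρ w w' h : E n → ℝ} (sm : Sm m)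
    (sF : Sm F) (sU : Sm U) (sV : Sm V) (se : Sm e) (se' : Sm e') (sH : Sm H) (sw : Sm w)
    (sw' : Sm w') (sh : Sm h) (pm : ∀ y ∈ D, 0 < m y) (pe : ∀ y, 0 < e y) (pe' : ∀ y, 0 < e' y)
    (b1 : ∀ᶠ y in 𝓝ˢ (frontier D), U y = ρ y * w y ∧ V y = ρ y * w' y ∧
      (y ∈ D → F y = m y * (ρ y * h y)))
    (b2 : ∀ y ∈ frontier D, 0 < w y ∧ 0 < h y)
    (hU : ∀ y ∈ D, (0 < η y → 0 < U y) ∧ (η y < 0 → U y < 0))
    (hV : ∀ y ∈ D, (0 < ζ y → 0 < V y) ∧ (ζ y < 0 → V y < 0))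
    (hU0 : ∀ x, η x = 0 → 0 < H x ∧ ∀ᶠ y in 𝓝 x, U y = η y * e y ∧ F y = ζ y + η y * H y)
    (hV0 : ∀ x, ζ x = 0 → ∀ᶠ y in 𝓝 x, V y = ζ y * e' y)
    (hF : ∀ y ∈ D, (0 < η y → 0 ≤ ζ y → 0 < F y) ∧ (η y < 0 → ζ y ≤ 0 → F y < 0)) :
    ∃ c a : E n → ℝ, PosCoeff D c ∧ PosCoeff D a ∧
      ∀ y ∈ D, F y = m y * (c y * U y + a y * V y) := by
  refine coef fun x hx => ?_
  by_cases hxD : x ∈ D
  · have L : Loc F U V x := by
      rcases lt_trichotomy (η x) 0 with h1 | h1 | h1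
      · have u := (hU x hxD).2 h1
        obtain ⟨c, a, k1, k2, k3⟩ := alg (F := F x) (V := V x) u.ne (by
          rcases le_or_gt (ζ x) 0 with h2 | h2
          · exact Or.inl (mul_pos_of_neg_of_neg u ((hF x hxD).2 h1 h2))
          · exact Or.inr (mul_neg_of_neg_of_pos u ((hV x hxD).1 h2)))
        exact loc sF sU sV u.ne k1 k2 k3
      · obtain ⟨H0, h2⟩ := hU0 x h1
        have h3 := h2.self_of_nhds
        rw [h1, zero_mul, zero_mul, add_zero] at h3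
        by_cases h4 : ζ x = 0
        · refine ⟨_, h2.and (hV0 x h4), fun y => H y / e y, fun y => 1 / e' y,
            (sH.div se fun y => (pe y).ne').contDiffOn,
            (contDiff_const.div se' fun y => (pe' y).ne').contDiffOn, div_pos H0 (pe x),
            div_pos one_pos (pe' x), fun y hy => ?_⟩
          have := (pe y).ne'
          have := (pe' y).ne'
          rw [hy.1.2, hy.1.1, hy.2]
          field_simp
          ring
        · have v : 0 < V x * F x := by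
            rw [h3.2]
            rcases lt_or_gt_of_ne h4 with h5 | h5
            · exact mul_pos_of_neg_of_neg ((hV x hxD).2 h5) h5
            · exact mul_pos ((hV x hxD).1 h5) h5
          have v0 : V x ≠ 0 := left_ne_zero_of_mul v.ne'
          obtain ⟨c, a, k1, k2, k3⟩ := alg (V := U x) v0 (Or.inl v)
          exact (loc sF sV sU v0 k1 k2 k3).swap
      · have u := (hU x hxD).1 h1
        obtain ⟨c, a, k1, k2, k3⟩ := alg (F := F x) (V := V x) u.ne' (by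
          rcases le_or_gt 0 (ζ x) with h2 | h2
          · exact Or.inl (mul_pos u ((hF x hxD).1 h1 h2))
          · exact Or.inr (mul_neg_of_pos_of_neg u ((hV x hxD).2 h2)))
        exact loc sF sU sV u.ne' k1 k2 k3
    obtain ⟨O, hO, c, a, h1, h2, h3, h4, h5⟩ := L
    refine ⟨O ∩ D, inter_mem hO (hD.mem_nhds hxD), fun y => c y / m y, fun y => a y / m y,
      (h1.mono inter_subset_left).div sm.contDiffOn fun y hy => (pm y hy.2).ne',
      (h2.mono inter_subset_left).div sm.contDiffOn fun y hy => (pm y hy.2).ne',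
      div_pos h3 (pm x hxD), div_pos h4 (pm x hxD), fun y hy => ?_⟩
    have := (pm y hy.2).ne'
    rw [h5 y hy.1.1]
    field_simp
  · have hS : x ∈ frontier D := by rw [hD.frontier_eq]; exact ⟨hx, hxD⟩
    obtain ⟨w0, h0⟩ := b2 x hS
    obtain ⟨c, a, k1, k2, k3⟩ := alg (V := w' x) w0.ne' (Or.inl (mul_pos w0 h0))
    obtain ⟨O, hO, c, a, h1, h2, h3, h4, h5⟩ := loc sh sw sw' w0.ne' k1 k2 k3
    refine ⟨_, inter_mem hO (eventually_nhdsSet_iff_forall.1 b1 x hS), c, a,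
      h1.mono inter_subset_left, h2.mono inter_subset_left, h3, h4, fun y hy => ?_⟩
    rw [hy.1.2.2.2 hy.2, hy.1.2.1, hy.1.2.2.1, h5 y hy.1.1]
    ring

lemma eta_line (p v : E n) (hv : ‖v‖ = 1) (R s t : ℝ) :
    eta (p + s • v) R (p + t • v) = (t - s) ^ 2 - R ^ 2 := by
  rw [eta, add_sub_add_left_eq_sub, ← sub_smul, norm_smul, hv, mul_one, Real.norm_eq_abs, sq_abs]
  ring

lemma main (hn : 2 ≤ n) {D : Set (E n)} (hD : SmoothDomain D) {A B : Mat n} (hA : Elliptic D A)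
    (hB : Elliptic D B) {Q₁ Q₂ m₁ m₂ ρ w₁ w₂ h₁ h₂ : E n → ℝ} (sQ₁ : Sm Q₁) (sQ₂ : Sm Q₂)
    (sm₁ : Sm m₁) (sm₂ : Sm m₂) (sρ : Sm ρ) (sw₁ : Sm w₁) (sw₂ : Sm w₂) (sh₁ : Sm h₁) (sh₂ : Sm h₂)
    (p0 : ∀ y ∈ D, 0 < ρ y ∧ 0 < m₁ y ∧ 0 < m₂ y) (p1 : ∀ y ∈ closure D, 0 < w₁ y ∧ 0 < w₂ y)
    (p2 : ∀ y ∈ frontier D, 0 < h₁ y ∧ 0 < h₂ y)
    (b₁ : ∀ᶠ y in 𝓝ˢ (frontier D), y ∈ D →
      sop A Q₁ (fun y => ρ y * w₁ y) y = m₁ y * (ρ y * h₁ y))
    (b₂ : ∀ᶠ y in 𝓝ˢ (frontier D), y ∈ D →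
      sop B Q₂ (fun y => ρ y * w₂ y) y = m₂ y * (ρ y * h₂ y)) :
    ∃ u v α β γ δ : E n → ℝ, Sm u ∧ Sm v ∧ PosCoeff D α ∧ PosCoeff D β ∧ PosCoeff D γ ∧
      PosCoeff D δ ∧ (∀ y ∈ D, sop A Q₁ u y = m₁ y * (α y * u y + β y * -v y) ∧
        sop B Q₂ v y = m₂ y * (δ y * v y + γ y * u y)) ∧
      (∀ᶠ y in 𝓝ˢ (frontier D), u y = ρ y * w₁ y ∧ v y = ρ y * w₂ y) ∧
      ∃ x ∈ D, 0 < u x ∧ 0 < v x := by
  obtain ⟨p, hp⟩ := hD.connected.nonempty
  obtain ⟨r, r0, hr⟩ := Metric.isOpen_iff.1 hD.isOpen p hp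
  obtain ⟨R, R0, rfl⟩ : ∃ R : ℝ, 0 < R ∧ r = 4 * R := ⟨r / 4, by positivity, by ring⟩
  set d : E n := EuclideanSpace.single ⟨0, by omega⟩ 1 with hd
  have d1 : ‖d‖ = 1 := by simp [hd]
  have ln := eta_line p d d1 R
  have inD : ∀ s : ℝ, |s| ≤ 2 * R → ball (p + s • d) (2 * R) ⊆ D := fun s hs y hy => hr (by
    have : dist (p + s • d) p = |s| := by
      rw [dist_eq_norm, add_sub_cancel_left, norm_smul, d1, mul_one, Real.norm_eq_abs]
    rw [mem_ball] at hy ⊢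
    linarith [dist_triangle y (p + s • d) p])
  have inD' : ∀ s : ℝ, |s| ≤ 2 * R → p + s • d ∈ D := fun s hs =>
    inD s hs (mem_ball_self (by positivity))
  have pos : ∀ {A : Mat n} {Q m w h : E n → ℝ}, Sm h → (∀ y ∈ D, 0 < m y) →
      (∀ y ∈ frontier D, 0 < h y) →
      (∀ᶠ y in 𝓝ˢ (frontier D), y ∈ D → sop A Q w y = m y * (ρ y * h y)) →
      ∀ᶠ y in 𝓝ˢ (frontier D), y ∈ D → 0 < sop A Q w y := by
    intro A Q m w h sh pm ph b
    have : ∀ᶠ y in 𝓝ˢ (frontier D), 0 < h y := eventually_nhdsSet_iff_forall.2 fun x hx =>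
      sh.continuous.continuousAt.eventually (lt_mem_nhds (ph x hx))
    filter_upwards [b, this] with y a1 a2 hy
    rw [a1 hy]; exact mul_pos (pm y hy) (mul_pos (p0 y hy).1 a2)
  have RR : 0 < R ^ 2 := by positivity
  have m2R : p + (-2 * R) • d ∈ D := inD' _ (by rw [abs_le]; constructor <;> linarith)
  obtain ⟨u, e, H, su, se, sH, pe, u1, u2, u3, u4⟩ := one hn hD hA sQ₁ (eta_sm (p + R • d) R).neg
    (sρ.mul sw₁) R0 (inD 0 (by rw [abs_zero]; linarith))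
    (fun y hy => mul_pos (p0 y hy).1 (p1 y (subset_closure hy)).1)
    (pos sh₁ (fun y hy => (p0 y hy).2.1) (fun y hy => (p2 y hy).1) b₁)
    ⟨p + (R / 2) • d, by rw [ln]; nlinarith, by rw [ln]; nlinarith⟩
    ⟨_, m2R, by rw [ln]; nlinarith, by rw [ln]; nlinarith⟩
  obtain ⟨v, e', H', sv, se', sH', pe', v1, v2, v3, v4⟩ := one hn hD hB sQ₂
    (eta_sm (p + (0 : ℝ) • d) R) (sρ.mul sw₂) R0 (inD R (by rw [abs_of_pos R0]; linarith))
    (fun y hy => mul_pos (p0 y hy).1 (p1 y (subset_closure hy)).2)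
    (pos sh₂ (fun y hy => (p0 y hy).2.2) (fun y hy => (p2 y hy).2) b₂)
    ⟨p + (3 * R / 2) • d, by rw [ln]; nlinarith, by rw [ln]; nlinarith⟩
    ⟨p + (-R / 2) • d, inD' _ (by rw [abs_le]; constructor <;> linarith), by rw [ln]; nlinarith,
      by rw [ln]; nlinarith⟩
  have tr : ∀ {A : Mat n} {Q U w F : E n → ℝ}, (∀ᶠ y in 𝓝ˢ (frontier D), U y = w y) →
      (∀ᶠ y in 𝓝ˢ (frontier D), y ∈ D → sop A Q w y = F y) →
      ∀ᶠ y in 𝓝ˢ (frontier D), y ∈ D → sop A Q U y = F y := by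
    intro A Q U w F a b
    filter_upwards [ev_nhdsSet a, b] with y a1 a2 hy
    rw [(sop_congr A Q a1).eq_of_nhds, a2 hy]
  obtain ⟨α, β, k1, k2, k3⟩ := half hD.isOpen (V := fun y => -v y) (ρ := ρ) sm₁
    (sop_sm hA.smooth sQ₁ su) su sv.neg se se' sH sw₁ sw₂.neg sh₁ (fun y hy => (p0 y hy).2.1) pe pe'
    (by
      filter_upwards [u1, v1, tr u1 b₁] with y a1 a2 a3
      exact ⟨a1, by rw [a2]; ring, a3⟩)
    (fun y hy => ⟨(p1 y (frontier_subset_closure hy)).1, (p2 y hy).1⟩) u2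
    (fun y hy => ⟨fun h => neg_pos.2 ((v2 y hy).2 (neg_pos.1 h)),
      fun h => neg_neg_iff_pos.2 ((v2 y hy).1 (neg_neg_iff_pos.1 h))⟩) u3
    (fun x hx => by
      filter_upwards [(v3 x (neg_eq_zero.1 hx)).2] with y hy
      rw [hy.1]; ring) u4
  obtain ⟨δ, γ, l1, l2, l3⟩ := half hD.isOpen (ρ := ρ) sm₂
    (sop_sm hB.smooth sQ₂ sv) sv su se' se sH' sw₂ sw₁ sh₂ (fun y hy => (p0 y hy).2.2) pe' pe
    (by
      filter_upwards [u1, v1, tr v1 b₂] with y a1 a2 a3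
      exact ⟨a2, a1, a3⟩)
    (fun y hy => ⟨(p1 y (frontier_subset_closure hy)).2, (p2 y hy).2⟩) v2 u2 v3
    (fun x hx => by
      filter_upwards [(u3 x hx).2] with y hy using hy.1) v4
  exact ⟨u, v, α, β, γ, δ, su, sv, k1, k2, l2, l1, fun y hy => ⟨k3 y hy, l3 y hy⟩, u1.and v1, _, m2R,
    (u2 _ m2R).1 (by rw [ln]; nlinarith), (v2 _ m2R).1 (by rw [ln]; nlinarith)⟩

end Pool.Agent.Lib.RM26
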