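import Pool.Agent.Lib.RM26.Chain

namespace Pool.Agent.Lib.RM26

open Set Filter Metric
open scoped ContDiff Topology

variable {n : ℕ}

noncomputable def eta (p : E n) (R : ℝ) (y : E n) : ℝ := 1 * ‖y - p‖ ^ 2 + -R ^ 2

lemma eta_sm (p : E n) (R : ℝ) : Sm (eta p R) :=
  (contDiff_const.mul (sq_sm p)).add contDiff_const

lemma eta_neg {p y : E n} {R : ℝ} (hR : 0 < R) : eta p R y < 0 ↔ y ∈ ball p R := by
  rw [mem_ball, dist_eq_norm, eta]
  have := norm_nonneg (y - p)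
  constructor <;> intro h <;> nlinarith

lemma eta_pos {p y : E n} {R : ℝ} (hR : 0 < R) : 0 < eta p R y ↔ y ∉ closedBall p R := by
  rw [mem_closedBall, dist_eq_norm, eta, not_le]
  have := norm_nonneg (y - p)
  constructor <;> intro h <;> nlinarith

lemma eta_zero {p y : E n} {R : ℝ} (hR : 0 < R) : eta p R y = 0 ↔ y ∈ sphere p R := by
  rw [← closedBall_sdiff_ball, Set.mem_sdiff, ← eta_neg hR, ← not_not (a := y ∈ closedBall p R),
    ← eta_pos hR, not_lt, not_lt]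
  exact ⟨fun h => ⟨h.le, h.ge⟩, fun h => le_antisymm h.1 h.2⟩

lemma sop_off (A : Mat n) (Q : E n → ℝ) {Θ : E n → ℝ} {C : Set (E n)} (hC : IsCompact C)
    (h : ∀ x ∉ C, Θ x = 0) {y : E n} (hy : y ∉ C) : sop A Q Θ y = 0 := by
  have h1 : Θ =ᶠ[𝓝 y] fun _ => 0 := by
    filter_upwards [hC.isClosed.isOpen_compl.mem_nhds hy] with z hz using h z hz
  rw [(sop_congr A Q h1).eq_of_nhds]
  simp [sop, op_zero]

lemma mem_of_not_frontier {D : Set (E n)} (hD : IsOpen D) {y : E n} (h : y ∈ closure D)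
    (h' : y ∉ frontier D) : y ∈ D := by
  by_contra hc
  exact h' (by rw [hD.frontier_eq]; exact ⟨h, hc⟩)

lemma one (hn : 2 ≤ n) {D : Set (E n)} (hD : SmoothDomain D) {A : Mat n} (hA : Elliptic D A)
    {Q f W : E n → ℝ} (hQ : Sm Q) (hf : Sm f) (hW : Sm W) {p : E n} {R : ℝ} (hR : 0 < R)
    (hb : ball p (2 * R) ⊆ D) (W0 : ∀ y ∈ D, 0 < W y)
    (W1 : ∀ᶠ y in 𝓝ˢ (frontier D), y ∈ D → 0 < sop A Q W y)
    (x1 : ∃ x, eta p R x < 0 ∧ 0 < f x) (x2 : ∃ x ∈ D, 0 < eta p R x ∧ f x < 0) :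
    ∃ U e H : E n → ℝ, Sm U ∧ Sm e ∧ Sm H ∧ (∀ x, 0 < e x) ∧
      (∀ᶠ y in 𝓝ˢ (frontier D), U y = W y) ∧
      (∀ y ∈ D, (0 < eta p R y → 0 < U y) ∧ (eta p R y < 0 → U y < 0)) ∧
      (∀ x, eta p R x = 0 → 0 < H x ∧ ∀ᶠ y in 𝓝 x, U y = eta p R y * e y ∧
        sop A Q U y = f y + eta p R y * H y) ∧
      ∀ y ∈ D, (0 < eta p R y → 0 ≤ f y → 0 < sop A Q U y) ∧
        (eta p R y < 0 → f y ≤ 0 → sop A Q U y < 0) := by
  have sA := hA.smooth
  have sη := eta_sm p R
  have cD : closedBall p R ⊆ D := (closedBall_subset_ball (by linarith)).trans hb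
  have fD : frontier D ⊆ Dᶜ := by rw [hD.isOpen.frontier_eq]; exact fun y hy => hy.2
  obtain ⟨e, H, se, sH, pe, pH, eH⟩ := nf hA hQ sη hf (isCompact_sphere p R)
    (sphere_subset_closedBall.trans (cD.trans subset_closure)) (fun x hx => (eta_zero hR).2 hx)
    (fun x hx => sq_fderiv (ne_of_mem_sphere hx hR.ne') _ _ one_ne_zero) (σ := 1) (one_mul 1)
  obtain ⟨χ, sχ, c0, c1, c2⟩ := cutoff hD.isOpen.isClosed_compl (isClosed_closedBall (x := p) (ε := R))
    (disjoint_left.2 fun x hx hx' => hx (cD hx'))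
  set u : E n → ℝ := fun y => (1 - χ y) * W y + χ y * (eta p R y * e y) with hu
  have su : Sm u := ((contDiff_const.sub sχ).mul hW).add (sχ.mul (sη.mul se))
  have u0 : ∀ᶠ y in 𝓝ˢ (frontier D), u y = W y := by
    filter_upwards [nhdsSet_mono fD c0] with y hy
    simp [hu, show χ y = 0 from hy]
  have u1 : ∀ᶠ y in 𝓝ˢ (closedBall p R), u y = eta p R y * e y := by
    filter_upwards [c1] with y hy
    simp [hu, hy]
  have u2 : ∀ᶠ y in 𝓝ˢ (sphere p R), (u y = eta p R y * e y ∧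
      sop A Q u y = f y + eta p R y * H y) ∧ 0 < H y := by
    have : ∀ᶠ y in 𝓝ˢ (sphere p R), 0 < H y := eventually_nhdsSet_iff_forall.2 fun x hx =>
      sH.continuous.continuousAt.eventually (lt_mem_nhds (by simpa using pH x hx))
    filter_upwards [nhdsSet_mono sphere_subset_closedBall (ev_nhdsSet u1), eH, this] with y a1 a2 a3
    have a1' : ∀ᶠ z in 𝓝 y, u z = eta p R z * e z := a1
    exact ⟨⟨a1'.self_of_nhds, by rw [(sop_congr A Q a1').eq_of_nhds, a2]⟩, a3⟩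
  have u3 : ∀ᶠ y in 𝓝ˢ (frontier D), y ∈ D → 0 < sop A Q u y := by
    filter_upwards [ev_nhdsSet u0, W1] with y a1 a2 hy
    rw [(sop_congr A Q a1).eq_of_nhds]; exact a2 hy
  obtain ⟨N, No, NZ, hN⟩ := eventually_nhdsSet_iff_exists.1 u2
  obtain ⟨N', No', NZ', hN'⟩ := eventually_nhdsSet_iff_exists.1 u3
  obtain ⟨Θ, C, h1, h2, h3, h4, h5, h6, h7⟩ := chain hA hQ (sop_sm sA hQ su)
    (Ω := D \ closedBall p R) (B := {y | f y < 0}) (K := closure D \ (N ∪ N' ∪ ball p R))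
    (hD.isOpen.sdiff isClosed_closedBall)
    (conn hn hD.connected.isPreconnected hR.le (by linarith) hb) sdiff_subset
    (isOpen_lt hf.continuous continuous_const)
    (by obtain ⟨x, a1, a2, a3⟩ := x2; exact ⟨x, ⟨a1, (eta_pos hR).1 a2⟩, a3⟩)
    (hD.bounded.isCompact_closure.diff ((No.union No').union isOpen_ball))
    (fun y hy => by
      simp only [Set.mem_sdiff, mem_union, not_or] at hy
      refine ⟨mem_of_not_frontier hD.isOpen hy.1 fun h => hy.2.1.2 (NZ' h), fun h => ?_⟩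
      rw [← ball_union_sphere] at h
      exact h.elim hy.2.2 fun h => hy.2.1.1 (NZ h))
  obtain ⟨Φ, C', k1, k2, k3, k4, k5, k6, k7⟩ := chain hA hQ (sop_sm sA hQ su).neg
    (Ω := ball p R) (B := {y | 0 < f y}) (K := closedBall p R \ N) isOpen_ball
    (convex_ball p R).isPreconnected (ball_subset_closedBall.trans cD)
    (isOpen_lt continuous_const hf.continuous)
    (by obtain ⟨x, a1, a2⟩ := x1; exact ⟨x, (eta_neg hR).1 a1, a2⟩)
    ((isCompact_closedBall p R).diff No)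
    (fun y hy => by
      have h := hy.1
      rw [← ball_union_sphere] at h
      exact h.elim id fun h => (hy.2 (NZ h)).elim)
  have s3 : Sm (fun y => -1 * Φ y) := contDiff_const.mul k1
  have eU : ∀ y, sop A Q (fun y => u y + (Θ y + -1 * Φ y)) y =
      sop A Q u y + sop A Q Θ y - sop A Q Φ y := fun y => by
    rw [sop_add sA su (h1.add s3), sop_add sA h1 s3, sop_cmul sA _ k1]; ring
  have off : ∀ {Z : Set (E n)}, (∀ y ∈ Z, y ∉ C ∧ y ∉ C') → ∀ᶠ y in 𝓝ˢ Z, y ∉ C ∧ y ∉ C' :=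
    fun h => (h3.isClosed.isOpen_compl.inter k3.isClosed.isOpen_compl).mem_nhdsSet.2 h
  refine ⟨fun y => u y + (Θ y + -1 * Φ y), e, H, su.add (h1.add s3), se, sH, pe, ?_,
    fun y hy => ⟨fun h => ?_, fun h => ?_⟩, fun x hx => ?_, fun y hy => ⟨fun h h' => ?_,
      fun h h' => ?_⟩⟩
  · filter_upwards [u0, off (Z := frontier D) fun y hy =>
      ⟨fun h => fD hy (h4 h).1, fun h => fD hy (cD (ball_subset_closedBall (k4 h)))⟩] with y a1 a2
    simp [a1, h5 y a2.1, k5 y a2.2]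
  · have a1 : Φ y = 0 := k5 y fun a => (eta_pos hR).1 h (ball_subset_closedBall (k4 a))
    have a2 : 0 < u y := by
      have b1 := mul_pos h (pe y)
      have b2 := W0 y hy
      rcases (c2 y).2.eq_or_lt with b | b
      · simpa [hu, b] using b1
      · exact add_pos_of_pos_of_nonneg (mul_pos (sub_pos.2 b) b2) (mul_nonneg (c2 y).1 b1.le)
    have := h2 y
    show 0 < u y + (Θ y + -1 * Φ y)
    rw [a1]; linarith
  · have b := ball_subset_closedBall ((eta_neg hR).1 h)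
    have a1 : Θ y = 0 := h5 y fun a => (h4 a).2 b
    have a2 : u y < 0 := by
      rw [u1.self_of_nhdsSet y b]; exact mul_neg_of_neg_of_pos h (pe y)
    have := k2 y
    show u y + (Θ y + -1 * Φ y) < 0
    rw [a1]; linarith
  · have hs := (eta_zero hR).1 hx
    refine ⟨(hN x (NZ hs)).2, ?_⟩
    have a := off (Z := sphere p R) fun y hy =>
      ⟨fun h => (h4 h).2 (sphere_subset_closedBall hy),
        fun h => absurd ((eta_neg hR).2 (k4 h)) (by rw [(eta_zero hR).2 hy]; exact lt_irrefl _)⟩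
    filter_upwards [No.mem_nhds (NZ hs), eventually_nhdsSet_iff_forall.1 a x hs] with y a1 a2
    refine ⟨?_, ?_⟩
    · simp [h5 y a2.1, k5 y a2.2, (hN y a1).1.1]
    · rw [eU, sop_off A Q h3 h5 a2.1, sop_off A Q k3 k5 a2.2, (hN y a1).1.2]; ring
  · have b := (eta_pos hR).1 h
    rw [eU, sop_off A Q k3 k5 fun a => b (ball_subset_closedBall (k4 a)), sub_zero]
    have yB : y ∉ {y | f y < 0} := not_lt.2 h'
    by_cases a1 : y ∈ N
    · have := mul_pos h (hN y a1).2
      have := h6 y yB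
      rw [(hN y a1).1.2]; linarith
    by_cases a2 : y ∈ N'
    · exact add_pos_of_pos_of_nonneg (hN' y a2 hy) (h6 y yB)
    refine h7 y ⟨subset_closure hy, ?_⟩ yB
    rintro ((a | a) | a)
    exacts [a1 a, a2 a, b (ball_subset_closedBall a)]
  · have b := ball_subset_closedBall ((eta_neg hR).1 h)
    rw [eU, sop_off A Q h3 h5 fun a => (h4 a).2 b, add_zero]
    have yB : y ∉ {y | 0 < f y} := not_lt.2 h'
    by_cases a1 : y ∈ N
    · have := mul_neg_of_neg_of_pos h (hN y a1).2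
      have := k6 y yB
      rw [(hN y a1).1.2]; linarith
    · have := k7 y ⟨b, a1⟩ yB
      linarith

end Pool.Agent.Lib.RM26
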