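import Pool.Agent.Lib.RM26.Defs

namespace Pool.Agent.Lib.RM26

open scoped ContDiff

/-- `(p, q)` is a smooth coexistence state of the predator-prey system with Dirichlet condition. -/
def Coexist {n : ℕ} (D : Set (E n)) (A B : Fin n → Fin n → E n → ℝ) (l m a b c d p q : E n → ℝ) :
    Prop :=
  ContDiff ℝ ∞ p ∧ ContDiff ℝ ∞ q ∧
    (∀ x ∈ D, 0 < p x ∧ 0 < q x ∧
      divOp A (fun _ => 0) p x = p x * (l x - a x * p x - b x * q x) ∧
      divOp B (fun _ => 0) q x = q x * (m x + c x * p x - d x * q x)) ∧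
    ∀ x ∈ frontier D, p x = 0 ∧ q x = 0

end Pool.Agent.Lib.RM26
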