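import Pool.Agent.Lib.RM26.Every
import Pool.Agent.Lib.RM26.PPDefs

namespace Pool.Agent.Lib.RM26

open Set Filter Metric
open scoped ContDiff Topology

variable {n : ℕ}

lemma ext_eq {D : Set (E n)} {f g : E n → ℝ} (hf : Sm f) (hg : Sm g) {x : E n} (hx : x ∈ closure D)
    (h : ∀ᶠ y in 𝓝 x, y ∈ D → f y = g y) : f x = g x :=
  tendsto_nhds_unique_of_frequently_eq hf.continuous.continuousAt hg.continuous.continuousAt
    ((mem_closure_iff_frequently.1 hx).mp (h.mono fun _ h1 h2 => h1 h2))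

lemma ratio {D : Set (E n)} (hD : IsOpen D) {F ρ e w : E n → ℝ} (sF : Sm F) (sρ : Sm ρ) (se : Sm e)
    (sw : Sm w) (ρ0 : ∀ y ∈ D, 0 < ρ y) (pe : ∀ y, 0 < e y)
    (h : ∀ᶠ y in 𝓝ˢ (frontier D), F y = ρ y * w y) :
    ∃ c : E n → ℝ, Sm c ∧ ∀ y ∈ D, F y = c y * (ρ y * e y) := by
  refine quot fun x hx => ?_
  by_cases hxD : x ∈ D
  · exact ⟨D, hD.mem_nhds hxD, fun y => F y / (ρ y * e y), sF.contDiffOn.div (sρ.mul se).contDiffOn
      fun y hy => (mul_pos (ρ0 y hy) (pe y)).ne',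
      fun y hy => (div_mul_cancel₀ _ (mul_pos (ρ0 y hy.2) (pe y)).ne').symm⟩
  · have hS : x ∈ frontier D := by rw [hD.frontier_eq]; exact ⟨hx, hxD⟩
    refine ⟨_, eventually_nhdsSet_iff_forall.1 h x hS, fun y => w y / e y,
      (sw.div se fun y => (pe y).ne').contDiffOn, fun y hy => ?_⟩
    have := (pe y).ne'
    rw [show F y = ρ y * w y from hy.1]
    field_simp

lemma ground {D : Set (E n)} (hD : SmoothDomain D) {A : Mat n} (hA : Elliptic D A) {ρ : E n → ℝ}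
    (sρ : Sm ρ) (ρ0 : ∀ y ∈ D, 0 < ρ y) (ρ1 : ∀ x ∈ frontier D, ρ x = 0 ∧ fderiv ℝ ρ x ≠ 0) :
    ∃ e Q : E n → ℝ, ∃ L : ℝ, Sm e ∧ Sm Q ∧ (∀ y, 0 < e y) ∧ 0 < L ∧
      (∀ y ∈ D, op A (fun y => ρ y * e y) y = Q y * (ρ y * e y)) ∧
      (∀ y ∈ closure D, 0 < -Q y + L * (ρ y * e y)) ∧
      ∃ w h : E n → ℝ, Sm w ∧ Sm h ∧ (∀ y ∈ closure D, 0 < w y) ∧ (∀ y ∈ frontier D, 0 < h y) ∧
        ∀ y ∈ D, sop A (fun y => Q y + 2 * L * (ρ y * e y)) (fun y => ρ y * w y) y =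
          ρ y * e y * (ρ y * h y) := by
  have sA := hA.smooth
  have s0 : Sm (fun _ : E n => (0 : ℝ)) := contDiff_const
  obtain ⟨e, H, se, sH, pe, pH, eH⟩ := nf hA s0 sρ s0 (frontier_compact hD)
    frontier_subset_closure (fun x hx => (ρ1 x hx).1) (fun x hx => (ρ1 x hx).2) (σ := -1)
    (by norm_num)
  set φ : E n → ℝ := fun y => ρ y * e y with hφ
  have sφ : Sm φ := sρ.mul se
  have eH' : ∀ᶠ y in 𝓝ˢ (frontier D), op A φ y = ρ y * H y := by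
    filter_upwards [eH] with y hy
    simpa [sop] using hy
  obtain ⟨Q, sQ, hQ⟩ := ratio hD.isOpen (op_sm sA sφ) sρ se sH ρ0 pe eH'
  have Q0 : ∀ x ∈ frontier D, Q x < 0 := fun x hx => by
    have h1 : Q x * e x = H x := ext_eq (sQ.mul se) sH (frontier_subset_closure hx) (by
      filter_upwards [eventually_nhdsSet_iff_forall.1 eH' x hx] with y hy hyD
      rw [hQ y hyD] at hy
      exact mul_left_cancel₀ (ρ0 y hyD).ne' (by linarith))
    have h2 := pH x hx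
    by_contra hc
    have := mul_nonneg (not_lt.1 hc) (pe x).le
    linarith
  have φ0 : ∀ y ∈ closure D, 0 ≤ φ y := fun y hy => by
    by_cases h : y ∈ frontier D
    · simp [hφ, (ρ1 y h).1]
    · exact (mul_pos (ρ0 y (mem_of_not_frontier hD.isOpen hy h)) (pe y)).le
  obtain ⟨L, L0, hL⟩ := big (hD.bounded.isCompact_closure.diff
    (isOpen_lt sQ.continuous (continuous_const (y := (0 : ℝ))))) sQ.neg.continuous.continuousOn
    sφ.continuous.continuousOn fun y hy =>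
      mul_pos (ρ0 y (mem_of_not_frontier hD.isOpen hy.1 fun h => hy.2 (Q0 y h))) (pe y)
  have sG := Gam_sm sA sφ sφ
  obtain ⟨K, K0, hK⟩ := big (frontier_compact hD) (f := fun _ => -(2 * L))
    (g := fun y => 12 * Gam A φ φ y) continuousOn_const
    (continuous_const.mul sG.continuous).continuousOn fun y hy =>
      mul_pos (by norm_num) (Gam_pos hA (frontier_subset_closure hy) (by
        rw [hφ, fderiv_fun_mul (sρ.d y) (se.d y), (ρ1 y hy).1, zero_smul, zero_add]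
        exact smul_ne_zero (pe y).ne' (ρ1 y hy).2))
  refine ⟨e, Q, L, se, sQ, pe, L0, hQ, fun y hy => ?_, fun y => e y * (1 + K * φ y ^ 3),
    fun y => e y * (-(2 * L) + K * (12 * Gam A φ φ y + φ y ^ 2 * (3 * Q y - 2 * L * φ y))),
    se.mul (contDiff_const.add (contDiff_const.mul (sφ.pow 3))),
    se.mul (contDiff_const.add (contDiff_const.mul ((contDiff_const.mul sG).add ((sφ.pow 2).mul
      ((contDiff_const.mul sQ).sub (contDiff_const.mul sφ)))))), fun y hy => ?_, fun y hy => ?_,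
    fun y hy => ?_⟩
  · by_cases h : Q y < 0
    · have := mul_nonneg L0.le (φ0 y hy)
      linarith
    · exact hL L le_rfl y ⟨hy, h⟩
  · have := pe y
    have := φ0 y hy
    positivity
  · refine mul_pos (pe y) ?_
    simpa [hφ, (ρ1 y hy).1] using hK K le_rfl y hy
  · have e1 : (fun y => ρ y * (e y * (1 + K * φ y ^ 3))) = fun y => φ y + K * φ y ^ (2 + 2) := by
      funext y; simp only [hφ]; ring
    have s4 : Sm (fun y => φ y ^ (2 + 2)) := sφ.pow _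
    rw [e1]
    simp only [sop]
    rw [op_add sA sφ (contDiff_const.mul s4), op_cmul sA K s4, op_pow sA 2 sφ, hQ y hy]
    simp only [hφ]
    push_cast
    ring

theorem predator (hn : 2 ≤ n) {D : Set (E n)} (hD : SmoothDomain D) {A B : Mat n}
    (hA : Elliptic D A) (hB : Elliptic D B) :
    ∃ l m a b c d p₁ q₁ p₂ q₂ : E n → ℝ, PosCoeff D l ∧ PosCoeff D m ∧ PosCoeff D a ∧
      PosCoeff D b ∧ PosCoeff D c ∧ PosCoeff D d ∧ Coexist D A B l m a b c d p₁ q₁ ∧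
      Coexist D A B l m a b c d p₂ q₂ ∧ ∃ x ∈ D, p₁ x ≠ p₂ x ∧ q₁ x ≠ q₂ x := by
  obtain ⟨ρ, sρ, ρ0, ρ1⟩ := defining hD
  have hK := hD.bounded.isCompact_closure
  obtain ⟨e₁, Q₁, L₁, se₁, sQ₁, pe₁, L₁0, hQ₁, hL₁, w₁, h₁, sw₁, sh₁, pw₁, ph₁, b₁⟩ :=
    ground hD hA sρ ρ0 ρ1
  obtain ⟨e₂, Q₂, L₂, se₂, sQ₂, pe₂, L₂0, hQ₂, hL₂, w₂, h₂, sw₂, sh₂, pw₂, ph₂, b₂⟩ :=
    ground hD hB sρ ρ0 ρ1
  have s₁ : Sm (fun y => ρ y * e₁ y) := sρ.mul se₁
  have s₂ : Sm (fun y => ρ y * e₂ y) := sρ.mul se₂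
  obtain ⟨u, v, α, β, γ, δ, su, sv, k1, k2, k3, k4, k5, k6, x, hx, k7, k8⟩ :=
    main hn hD hA hB (sQ₁.add (contDiff_const.mul s₁)) (sQ₂.add (contDiff_const.mul s₂)) s₁ s₂ sρ
      sw₁ sw₂ sh₁ sh₂
      (fun y hy => ⟨ρ0 y hy, mul_pos (ρ0 y hy) (pe₁ y), mul_pos (ρ0 y hy) (pe₂ y)⟩)
      (fun y hy => ⟨pw₁ y hy, pw₂ y hy⟩) (fun y hy => ⟨ph₁ y hy, ph₂ y hy⟩)
      (Eventually.of_forall b₁) (Eventually.of_forall b₂)
  obtain ⟨U, sU, hU⟩ := ratio hD.isOpen su sρ se₁ sw₁ ρ0 pe₁ (k6.mono fun _ h => h.1)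
  obtain ⟨V, sV, hV⟩ := ratio hD.isOpen sv sρ se₂ sw₂ ρ0 pe₂ (k6.mono fun _ h => h.2)
  have ρ2 : ∀ y ∈ closure D, 0 ≤ ρ y := fun y hy => by
    by_cases h : y ∈ frontier D
    · exact (ρ1 y h).1.ge
    · exact (ρ0 y (mem_of_not_frontier hD.isOpen hy h)).le
  obtain ⟨M, M0, hM⟩ := big hK (f := fun y => -(2 * γ y * (ρ y * e₁ y)))
    (g := fun y => -Q₂ y + L₂ * (ρ y * e₂ y))
    ((contDiff_const.mul k3.1).mul s₁).neg.continuous.continuousOn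
    (sQ₂.neg.add (contDiff_const.mul s₂)).continuous.continuousOn hL₂
  obtain ⟨N, N0, hN⟩ := big hK (f := fun y => -(2 * (|U y| + |V y / M|))) (g := fun _ => 1)
    (by
      have := sU.continuous
      have := sV.continuous
      fun_prop) continuousOn_const fun _ _ => one_pos
  have bd : ∀ y ∈ closure D, |U y / N| < 1 / 2 ∧ |V y / M / N| < 1 / 2 := fun y hy => by
    have := hN N le_rfl y hy
    have := abs_nonneg (U y)
    have := abs_nonneg (V y / M)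
    rw [abs_div, abs_div _ N, abs_of_pos N0, div_lt_iff₀ N0, div_lt_iff₀ N0]
    constructor <;> linarith
  obtain ⟨g₁, sg₁, pg₁, eg₁⟩ := posExt isClosed_closure (g := fun y => 1 + U y / N)
    (contDiff_const.add (sU.div_const N)) fun y hy => by linarith [(abs_lt.1 (bd y hy).1).1]
  obtain ⟨g₂, sg₂, pg₂, eg₂⟩ := posExt isClosed_closure (g := fun y => 1 - V y / M / N)
    (contDiff_const.sub ((sV.div_const M).div_const N)) fun y hy => by
      linarith [(abs_lt.1 (bd y hy).2).2]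
  have g₁e : ∀ y ∈ closure D, g₁ y = 1 + U y / N := eg₁.self_of_nhdsSet
  have g₂e : ∀ y ∈ closure D, g₂ y = 1 - V y / M / N := eg₂.self_of_nhdsSet
  have pc : ∀ {f g : E n → ℝ}, Sm f → Sm g → (∀ y ∈ closure D, 0 < f y) → (∀ y, 0 < g y) →
      PosCoeff D fun y => f y / g y := fun h1 h2 h3 h4 =>
    ⟨h1.div h2 fun y => (h4 y).ne', fun y hy => div_pos (h3 y hy) (h4 y)⟩
  have pa := pc (k1.1.add (contDiff_const (c := 2 * L₁))) sg₁
    (fun y hy => add_pos (k1.2 y hy) (by positivity)) pg₁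
  have pb := pc ((contDiff_const (c := M)).mul k2.1) sg₁ (fun y hy => mul_pos M0 (k2.2 y hy)) pg₁
  have pc' := pc (k3.1.div_const M) sg₂ (fun y hy => div_pos (k3.2 y hy) M0) pg₂
  have pd' := pc (k4.1.add (contDiff_const (c := 2 * L₂))) sg₂
    (fun y hy => add_pos (k4.2 y hy) (by positivity)) pg₂
  have s₃ : Sm (fun y => N⁻¹ * u y) := contDiff_const.mul su
  have s₄ : Sm (fun y => -(M * N)⁻¹ * v y) := contDiff_const.mul sv
  refine ⟨fun y => -Q₁ y + (α y + 2 * L₁) / g₁ y * (ρ y * e₁ y) + M * β y / g₁ y * (ρ y * e₂ y),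
    fun y => -Q₂ y - γ y / M / g₂ y * (ρ y * e₁ y) + (δ y + 2 * L₂) / g₂ y * (ρ y * e₂ y),
    _, _, _, _, fun y => ρ y * e₁ y + N⁻¹ * u y, fun y => ρ y * e₂ y + -(M * N)⁻¹ * v y,
    fun y => ρ y * e₁ y, fun y => ρ y * e₂ y,
    ⟨(sQ₁.neg.add (pa.1.mul s₁)).add (pb.1.mul s₂), fun y hy => ?_⟩,
    ⟨(sQ₂.neg.sub (pc'.1.mul s₁)).add (pd'.1.mul s₂), fun y hy => ?_⟩, pa, pb, pc', pd',
    ⟨s₁.add s₃, s₂.add s₄, fun y hy => ?_, fun y hy => ?_⟩,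
    ⟨s₁, s₂, fun y hy => ⟨mul_pos (ρ0 y hy) (pe₁ y), mul_pos (ρ0 y hy) (pe₂ y), ?_, ?_⟩,
      fun y hy => by simp [(ρ1 y hy).1]⟩, x, hx, ?_, ?_⟩
  · have a1 : L₁ ≤ (α y + 2 * L₁) / g₁ y := by
      rw [le_div_iff₀ (pg₁ y), g₁e y hy]
      nlinarith [(abs_lt.1 (bd y hy).1).2, k1.2 y hy]
    have a2 := mul_le_mul_of_nonneg_right a1 (mul_nonneg (ρ2 y hy) (pe₁ y).le)
    have a3 := mul_nonneg (pb.2 y hy).le (mul_nonneg (ρ2 y hy) (pe₂ y).le)
    have a4 := hL₁ y hy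
    linarith
  · have a1 : L₂ ≤ (δ y + 2 * L₂) / g₂ y := by
      rw [le_div_iff₀ (pg₂ y), g₂e y hy]
      nlinarith [(abs_lt.1 (bd y hy).2).1, k4.2 y hy]
    have a2 := mul_le_mul_of_nonneg_right a1 (mul_nonneg (ρ2 y hy) (pe₂ y).le)
    have a3 : γ y / M / g₂ y ≤ 2 * γ y / M := by
      rw [div_le_iff₀ (pg₂ y), g₂e y hy, mul_div_assoc]
      nlinarith [(abs_lt.1 (bd y hy).2).2, div_pos (k3.2 y hy) M0]
    have a4 := mul_le_mul_of_nonneg_right a3 (mul_nonneg (ρ2 y hy) (pe₁ y).le)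
    have a5 : 2 * γ y / M * (ρ y * e₁ y) < -Q₂ y + L₂ * (ρ y * e₂ y) := by
      rw [div_mul_eq_mul_div, div_lt_iff₀ M0]
      linarith [hM M le_rfl y hy]
    linarith
  · have c := subset_closure hy
    have a1 : ρ y * e₁ y + N⁻¹ * u y = ρ y * e₁ y * g₁ y := by
      rw [g₁e y c, hU y hy]; ring
    have a2 : ρ y * e₂ y + -(M * N)⁻¹ * v y = ρ y * e₂ y * g₂ y := by
      rw [g₂e y c, hV y hy]; ring
    have a3 := k5 y hy
    simp only [sop] at a3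
    have g1 := (pg₁ y).ne'
    have g2 := (pg₂ y).ne'
    refine ⟨?_, ?_, ?_, ?_⟩
    · show 0 < ρ y * e₁ y + N⁻¹ * u y
      rw [a1]; exact mul_pos (mul_pos (ρ0 y hy) (pe₁ y)) (pg₁ y)
    · show 0 < ρ y * e₂ y + -(M * N)⁻¹ * v y
      rw [a2]; exact mul_pos (mul_pos (ρ0 y hy) (pe₂ y)) (pg₂ y)
    · rw [divOp_eq, op_add hA.smooth s₁ s₃, op_cmul hA.smooth _ su, hQ₁ y hy]
      have a4 : ∀ t : ℝ, (ρ y * e₁ y + N⁻¹ * u y) * (t / g₁ y) = ρ y * e₁ y * t := fun t => by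
        rw [a1]; field_simp
      have a5 : M * (M * N)⁻¹ = N⁻¹ := by field_simp
      linear_combination (-N⁻¹) * a3.1 + N⁻¹ * u y * a4 (α y + 2 * L₁) -
        (M * N)⁻¹ * v y * a4 (M * β y) - ρ y * e₁ y * β y * v y * a5
    · rw [divOp_eq, op_add hB.smooth s₂ s₄, op_cmul hB.smooth _ sv, hQ₂ y hy]
      have a4 : ∀ t : ℝ, (ρ y * e₂ y + -(M * N)⁻¹ * v y) * (t / g₂ y) = ρ y * e₂ y * t :=
        fun t => by rw [a2]; field_simp
      linear_combination (M * N)⁻¹ * a3.2 - N⁻¹ * u y * a4 (γ y / M) -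
        (M * N)⁻¹ * v y * a4 (δ y + 2 * L₂)
  · have := k6.self_of_nhdsSet y hy
    simp [this.1, this.2, (ρ1 y hy).1]
  · rw [divOp_eq, hQ₁ y hy]; ring
  · rw [divOp_eq, hQ₂ y hy]; ring
  · simp [N0.ne', k7.ne']
  · simp [N0.ne', M0.ne', k8.ne']

end Pool.Agent.Lib.RM26
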