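import Pool.Agent.Lib.RM26.Calc

namespace Pool.Agent.Lib.RM26

open Set Filter
open scoped ContDiff Topology Manifold

variable {n : ℕ}

lemma cutoff {s t : Set (E n)} (hs : IsClosed s) (ht : IsClosed t) (hd : Disjoint s t) :
    ∃ χ : E n → ℝ, Sm χ ∧ (∀ᶠ x in 𝓝ˢ s, χ x = 0) ∧ (∀ᶠ x in 𝓝ˢ t, χ x = 1) ∧
      ∀ x, 0 ≤ χ x ∧ χ x ≤ 1 := by
  obtain ⟨f, h1, h2, h3⟩ :=
    exists_contMDiffMap_zero_one_nhds_of_isClosed (n := ⊤) 𝓘(ℝ, E n) hs ht hd
  exact ⟨f, f.contMDiff.contDiff, h1, h2, fun x => h3 x⟩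

lemma ev_nhdsSet {s : Set (E n)} {p : E n → Prop} (h : ∀ᶠ x in 𝓝ˢ s, p x) :
    ∀ᶠ x in 𝓝ˢ s, ∀ᶠ y in 𝓝 x, p y :=
  eventually_nhdsSet_iff_forall.2 fun x hx =>
    (eventually_nhdsSet_iff_forall.1 h x hx).eventually_nhds

lemma select {F : Type} [NormedAddCommGroup F] [NormedSpace ℝ F] {t : E n → Set F}
    (ht : ∀ x, Convex ℝ (t x))
    (h : ∀ x, ∃ U ∈ 𝓝 x, ∃ g : E n → F, ContDiffOn ℝ ∞ g U ∧ ∀ y ∈ U, g y ∈ t y) :
    ∃ g : E n → F, ContDiff ℝ ∞ g ∧ ∀ x, g x ∈ t x := by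
  obtain ⟨g, hg⟩ := exists_contMDiffMap_forall_mem_convex_of_local (n := ⊤) 𝓘(ℝ, E n) ht
    (fun x => by
      obtain ⟨U, hU, g, h1, h2⟩ := h x
      exact ⟨U, hU, g, h1.contMDiffOn, h2⟩)
  exact ⟨g, g.contMDiff.contDiff, hg⟩

lemma coef {D : Set (E n)} {F m U V : E n → ℝ}
    (h : ∀ x ∈ closure D, ∃ O ∈ 𝓝 x, ∃ c a : E n → ℝ, ContDiffOn ℝ ∞ c O ∧ ContDiffOn ℝ ∞ a O ∧
      0 < c x ∧ 0 < a x ∧ ∀ y ∈ O ∩ D, F y = m y * (c y * U y + a y * V y)) :
    ∃ c a : E n → ℝ, PosCoeff D c ∧ PosCoeff D a ∧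
      ∀ y ∈ D, F y = m y * (c y * U y + a y * V y) := by
  obtain ⟨g, hg, h1⟩ := select (F := ℝ × ℝ)
    (t := fun y => {z | (y ∈ closure D → 0 < z.1 ∧ 0 < z.2) ∧
      (y ∈ D → F y = m y * (z.1 * U y + z.2 * V y))}) (fun y => by
      intro z hz w hw a b ha hb hab
      have pos : ∀ p q : ℝ, 0 < p → 0 < q → 0 < a * p + b * q := fun p q hp hq => by
        rcases ha.eq_or_lt with rfl | ha'
        · have : b = 1 := by linarith
          subst this; linarith
        · have := mul_pos ha' hp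
          have := mul_nonneg hb hq.le
          linarith
      refine ⟨fun hy => ⟨?_, ?_⟩, fun hy => ?_⟩
      · simpa using pos _ _ (hz.1 hy).1 (hw.1 hy).1
      · simpa using pos _ _ (hz.1 hy).2 (hw.1 hy).2
      · have e1 := hz.2 hy
        have e2 := hw.2 hy
        simp only [Prod.fst_add, Prod.smul_fst, smul_eq_mul, Prod.snd_add, Prod.smul_snd]
        have : F y = a * F y + b * F y := by rw [← add_mul, hab, one_mul]
        rw [this]
        nth_rewrite 1 [e1]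
        rw [e2]; ring)
    (fun x => by
      by_cases hx : x ∈ closure D
      · obtain ⟨O, hO, c, a, hc, ha, c0, a0, he⟩ := h x hx
        have e1 : ∀ᶠ y in 𝓝 x, 0 < c y :=
          (hc.continuousOn.continuousAt hO).eventually (lt_mem_nhds c0)
        have e2 : ∀ᶠ y in 𝓝 x, 0 < a y :=
          (ha.continuousOn.continuousAt hO).eventually (lt_mem_nhds a0)
        refine ⟨O ∩ {y | 0 < c y ∧ 0 < a y}, inter_mem hO (e1.and e2), fun y => (c y, a y),
          (hc.prodMk ha).mono inter_subset_left, fun y hy => ⟨fun _ => hy.2, fun hD => ?_⟩⟩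
        exact he y ⟨hy.1, hD⟩
      · exact ⟨(closure D)ᶜ, isClosed_closure.isOpen_compl.mem_nhds hx, fun _ => (1, 1),
          contDiffOn_const, fun y hy => ⟨fun h => (hy h).elim,
            fun h => (hy (subset_closure h)).elim⟩⟩)
  exact ⟨fun y => (g y).1, fun y => (g y).2, ⟨hg.fst, fun x hx => ((h1 x).1 hx).1⟩,
    ⟨hg.snd, fun x hx => ((h1 x).1 hx).2⟩, fun y hy => (h1 y).2 hy⟩

lemma quot {D : Set (E n)} {F m : E n → ℝ}
    (h : ∀ x ∈ closure D, ∃ O ∈ 𝓝 x, ∃ c : E n → ℝ, ContDiffOn ℝ ∞ c O ∧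
      ∀ y ∈ O ∩ D, F y = c y * m y) :
    ∃ c : E n → ℝ, Sm c ∧ ∀ y ∈ D, F y = c y * m y := by
  obtain ⟨g, hg, h1⟩ := select (F := ℝ)
    (t := fun y => {z | y ∈ D → F y = z * m y}) (fun y => by
      intro z hz w hw a b _ _ hab hy
      have e1 := hz hy
      have e2 := hw hy
      simp only [smul_eq_mul]
      have : F y = a * F y + b * F y := by rw [← add_mul, hab, one_mul]
      rw [this]
      nth_rewrite 1 [e1]
      rw [e2]; ring)
    (fun x => by
      by_cases hx : x ∈ closure D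
      · obtain ⟨O, hO, c, hc, he⟩ := h x hx
        exact ⟨O, hO, c, hc, fun y hy hD => he y ⟨hy, hD⟩⟩
      · exact ⟨(closure D)ᶜ, isClosed_closure.isOpen_compl.mem_nhds hx, fun _ => 1,
          contDiffOn_const, fun y hy h => (hy (subset_closure h)).elim⟩)
  exact ⟨g, hg, fun y hy => h1 y hy⟩

lemma big {X : Type} [TopologicalSpace X] {K : Set X} (hK : IsCompact K) {f g : X → ℝ}
    (hf : ContinuousOn f K) (hg : ContinuousOn g K) (hpos : ∀ x ∈ K, 0 < g x) :
    ∃ M : ℝ, 0 < M ∧ ∀ M', M ≤ M' → ∀ x ∈ K, 0 < f x + M' * g x := by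
  have hc : ContinuousOn (fun x => -f x / g x) K := hf.neg.div hg fun x hx => (hpos x hx).ne'
  obtain ⟨C, hC⟩ := (hK.image_of_continuousOn hc).bddAbove
  refine ⟨max C 0 + 1, by positivity, fun M' hM x hx => ?_⟩
  have h1 : -f x / g x ≤ C := hC ⟨x, hx, rfl⟩
  have h2 : -f x / g x < M' := by
    have := le_max_left C 0
    linarith
  rw [div_lt_iff₀ (hpos x hx)] at h2
  linarith

/-- A smooth function positive on a closed set agrees near it with a positive smooth function. -/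
lemma posExt {Z : Set (E n)} (hZ : IsClosed Z) {g : E n → ℝ} (hg : Sm g) (h : ∀ x ∈ Z, 0 < g x) :
    ∃ e : E n → ℝ, Sm e ∧ (∀ x, 0 < e x) ∧ ∀ᶠ y in 𝓝ˢ Z, e y = g y := by
  obtain ⟨χ, hχ, h0, h1, h2⟩ := cutoff hZ (isClosed_le hg.continuous continuous_const (g := fun _ => 0))
    (disjoint_left.2 fun x hx hx' => absurd (h x hx) (not_lt.2 hx'))
  refine ⟨fun y => (1 - χ y) * g y + χ y, ((contDiff_const.sub hχ).mul hg).add hχ, fun x => ?_, ?_⟩
  · by_cases hx : g x ≤ 0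
    · have : χ x = 1 := h1.self_of_nhdsSet x hx
      simp [this]
    · have hx' := not_le.1 hx
      rcases (h2 x).2.eq_or_lt with h3 | h3
      · simp [h3]
      · have := mul_pos (sub_pos.2 h3) hx'
        have := (h2 x).1
        show 0 < (1 - χ x) * g x + χ x
        linarith
  · filter_upwards [h0] with y hy
    simp [hy]

/-- Normal form at a regular level set. -/
lemma nf {D : Set (E n)} {A : Mat n} (hA : Elliptic D A) {Q η f : E n → ℝ} (hQ : Sm Q) (hη : Sm η)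
    (hf : Sm f) {Z : Set (E n)} (hZ : IsCompact Z) (hZD : Z ⊆ closure D) (h0 : ∀ x ∈ Z, η x = 0)
    (h1 : ∀ x ∈ Z, fderiv ℝ η x ≠ 0) {σ : ℝ} (hσ : σ * σ = 1) :
    ∃ e H : E n → ℝ, Sm e ∧ Sm H ∧ (∀ x, 0 < e x) ∧ (∀ x ∈ Z, 0 < σ * H x) ∧
      ∀ᶠ y in 𝓝ˢ Z, sop A Q (fun y => η y * e y) y = f y + η y * H y := by
  have sA := hA.smooth
  have sG : Sm (Gam A η η) := Gam_sm sA hη hη
  have pG : ∀ x ∈ Z, 0 < Gam A η η x := fun x hx => Gam_pos hA (hZD hx) (h1 x hx)
  obtain ⟨m, sm, pm, em⟩ := posExt hZ.isClosed sG pG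
  set g : E n → ℝ := fun y => (f y - op A η y) / (2 * m y) with hg
  have sg : Sm g := (hf.sub (op_sm sA hη)).div (contDiff_const.mul sm)
    fun y => (mul_pos two_pos (pm y)).ne'
  set H0 : E n → ℝ := fun y => 4 * Gam A g η y + 2 * g y * op A η y - Q y with hH0
  have sH0 : Sm H0 := ((contDiff_const.mul (Gam_sm sA sg hη)).add
    ((contDiff_const.mul sg).mul (op_sm sA hη))).sub hQ
  obtain ⟨M, -, hM⟩ := big hZ (f := fun y => σ * H0 y) (g := fun y => 6 * Gam A η η y)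
    (continuous_const.mul sH0.continuous).continuousOn
    (continuous_const.mul sG.continuous).continuousOn fun x hx => mul_pos (by norm_num) (pG x hx)
  set K : ℝ := σ * M with hK
  set e0 : E n → ℝ := fun y => 1 + g y * η y + K * η y ^ 2 with he0
  have se0 : Sm e0 := (contDiff_const.add (sg.mul hη)).add (contDiff_const.mul (hη.pow 2))
  obtain ⟨e, se, pe, ee⟩ := posExt hZ.isClosed se0 fun x hx => by simp [he0, h0 x hx]
  refine ⟨e, fun y => H0 y + 6 * K * Gam A η η y +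
    η y * (op A g y + 3 * K * op A η y - Q y * (g y + K * η y)), se, ?_, pe, fun x hx => ?_, ?_⟩
  · exact (sH0.add (contDiff_const.mul sG)).add (hη.mul (((op_sm sA sg).add
      (contDiff_const.mul (op_sm sA hη))).sub (hQ.mul (sg.add (contDiff_const.mul hη)))))
  · have := hM M le_rfl x hx
    simp only [h0 x hx, zero_mul, add_zero]
    have e1 : σ * (H0 x + 6 * K * Gam A η η x) = σ * H0 x + (σ * σ) * (M * (6 * Gam A η η x)) := by
      rw [hK]; ring
    rw [e1, hσ, one_mul]; exact this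
  · filter_upwards [em, ev_nhdsSet ee] with y hm hy
    have e1 : (fun y => η y * e y) =ᶠ[𝓝 y]
        fun y => η y + (g y * η y ^ 2 + K * η y ^ (1 + 2)) := by
      filter_upwards [hy] with z hz
      rw [hz, he0]; ring
    rw [(sop_congr A Q e1).eq_of_nhds]
    have s2 : Sm (fun y => η y ^ 2) := hη.pow 2
    have s3 : Sm (fun y => η y ^ (1 + 2)) := hη.pow _
    have e2 := op_pow sA 0 hη y
    have e3 : g y * (2 * Gam A η η y) = f y - op A η y := by
      rw [← hm, hg]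
      exact div_mul_cancel₀ _ (mul_pos two_pos (pm y)).ne'
    simp only [sop]
    rw [op_add sA hη ((sg.mul s2).add (contDiff_const.mul s3)),
      op_add sA (sg.mul s2) (contDiff_const.mul s3), op_mul sA hA.symm sg s2, op_cmul sA K s3,
      op_pow sA 1 hη, Gam_sq A hη]
    simp only [zero_add] at e2
    rw [e2]
    simp only [hH0]
    push_cast
    linear_combination e3

lemma half_space {V : Type} [AddCommGroup V] [Module ℝ V] {l0 l1 : V →ₗ[ℝ] ℝ} (h0 : l0 ≠ 0)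
    (h : ∀ v, 0 < l0 v → l1 v = 0) : l1 = 0 := by
  obtain ⟨e, he⟩ : ∃ e, 0 < l0 e := by
    by_contra hc
    push Not at hc
    apply h0
    ext v
    have := hc (-v)
    rw [map_neg] at this
    exact le_antisymm (hc v) (by simpa using this)
  ext v
  have h1 := h (v + ((|l0 v| + 1) / l0 e) • e) (by
    rw [map_add, map_smul, smul_eq_mul, div_mul_cancel₀ _ he.ne']
    have := neg_abs_le (l0 v)
    linarith)
  rw [map_add, map_smul, h e he] at h1
  simpa using h1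

lemma inward {D : Set (E n)} {x v : E n} {U : Set (E n)} (hU : U ∈ 𝓝 x) {r ρ : E n → ℝ}
    (hr : Sm r) (hρ : Sm ρ) (r0 : r x = 0) (ρ0 : ρ x = 0) (hD : ∀ y ∈ U, (y ∈ D ↔ 0 < r y))
    (hp : ∀ y ∈ D, 0 ≤ ρ y) (hv : 0 < fderiv ℝ r x v) : 0 ≤ fderiv ℝ ρ x v := by
  have hl : HasDerivAt (fun t : ℝ => x + t • v) v 0 := by
    simpa using ((hasDerivAt_id (0 : ℝ)).smul_const v).const_add x
  have key : ∀ {φ : E n → ℝ}, Sm φ → φ x = 0 →
      Tendsto (fun t : ℝ => t⁻¹ * φ (x + t • v)) (𝓝[>] 0) (𝓝 (fderiv ℝ φ x v)) := by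
    intro φ hφ h0
    have h1 : HasFDerivAt φ (fderiv ℝ φ x) (x + (0 : ℝ) • v) := by
      simpa using (hφ.d x).hasFDerivAt
    have h2 := (h1.comp_hasDerivAt (0 : ℝ) hl).tendsto_slope_zero_right
    simpa [h0] using h2
  have hc : Tendsto (fun t : ℝ => x + t • v) (𝓝[>] 0) (𝓝 x) := by
    have := hl.continuousAt.tendsto
    simp only [zero_smul, add_zero] at this
    exact this.mono_left nhdsWithin_le_nhds
  refine ge_of_tendsto (key hρ ρ0) ?_
  filter_upwards [(key hr r0).eventually (lt_mem_nhds hv), hc.eventually hU,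
    self_mem_nhdsWithin] with t h1 h2 h3
  have h4 : (0 : ℝ) < t⁻¹ := inv_pos.2 h3
  exact mul_nonneg h4.le (hp _ ((hD _ h2).2 ((mul_pos_iff_of_pos_left h4).1 h1)))

lemma bdry_zero {D : Set (E n)} (hD : IsOpen D) {U : Set (E n)} {r : E n → ℝ} (hr : Sm r)
    (h : ∀ y ∈ U, (y ∈ D ↔ 0 < r y)) {y : E n} (hy : y ∈ frontier D) (hU : U ∈ 𝓝 y) : r y = 0 := by
  rw [hD.frontier_eq] at hy
  refine le_antisymm (not_lt.1 fun hc => hy.2 ((h y (mem_of_mem_nhds hU)).2 hc)) ?_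
  by_contra hc
  have h1 : ∀ᶠ z in 𝓝 y, r z < 0 := hr.continuous.continuousAt.eventually (gt_mem_nhds (not_le.1 hc))
  obtain ⟨z, hz, hzD⟩ := mem_closure_iff_nhds.1 hy.1 _ (inter_mem hU h1)
  exact absurd ((h z hz.1).1 hzD) (not_lt.2 (le_of_lt hz.2))

/-- A global defining function. -/
lemma defining {D : Set (E n)} (hD : SmoothDomain D) :
    ∃ ρ : E n → ℝ, Sm ρ ∧ (∀ x ∈ D, 0 < ρ x) ∧ ∀ x ∈ frontier D, ρ x = 0 ∧ fderiv ℝ ρ x ≠ 0 := by
  have hK : IsCompact (closure D) := hD.bounded.isCompact_closure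
  have main := hK.induction_on (p := fun s => ∃ ρ : E n → ℝ, Sm ρ ∧ (∀ x ∈ D, 0 ≤ ρ x) ∧
      (∀ x ∈ frontier D, ρ x = 0) ∧ ∀ x ∈ s, (x ∈ D → 0 < ρ x) ∧
        (x ∈ frontier D → fderiv ℝ ρ x ≠ 0))
    ⟨fun _ => 0, contDiff_const, fun _ _ => le_rfl, fun _ _ => rfl, fun _ h => h.elim⟩
    (fun s t hst ⟨ρ, h1, h2, h3, h4⟩ => ⟨ρ, h1, h2, h3, fun x hx => h4 x (hst hx)⟩)
    (fun s t ⟨ρ, h1, h2, h3, h4⟩ ⟨τ, k1, k2, k3, k4⟩ => by
      refine ⟨fun y => ρ y + τ y, h1.add k1, fun x hx => add_nonneg (h2 x hx) (k2 x hx),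
        fun x hx => by simp [h3 x hx, k3 x hx], fun x hx => ⟨fun hxD => ?_, fun hxS hc => ?_⟩⟩
      · rcases hx with hx | hx
        · exact add_pos_of_pos_of_nonneg ((h4 x hx).1 hxD) (k2 x hxD)
        · exact add_pos_of_nonneg_of_pos (h2 x hxD) ((k4 x hx).1 hxD)
      · obtain ⟨U, hU, r, sr, dr, hr⟩ := hD.boundary x hxS
        have r0 := bdry_zero hD.isOpen sr hr hxS hU
        rw [fderiv_fun_add (h1.d x) (k1.d x)] at hc
        have both : ∀ v, 0 < fderiv ℝ r x v → fderiv ℝ ρ x v = 0 ∧ fderiv ℝ τ x v = 0 := by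
          intro v hv
          have a1 := inward hU sr h1 r0 (h3 x hxS) hr h2 hv
          have a2 := inward hU sr k1 r0 (k3 x hxS) hr k2 hv
          have a3 : fderiv ℝ ρ x v + fderiv ℝ τ x v = 0 := by
            simpa using congrArg (fun l : E n →L[ℝ] ℝ => l v) hc
          constructor <;> linarith
        have dr' : (fderiv ℝ r x : E n →ₗ[ℝ] ℝ) ≠ 0 := fun h => dr (by
          ext v; exact congrArg (fun l : E n →ₗ[ℝ] ℝ => l v) h)
        rcases hx with hx | hx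
        · refine (h4 x hx).2 hxS ?_
          have := half_space (l1 := (fderiv ℝ ρ x : E n →ₗ[ℝ] ℝ)) dr' fun v hv => (both v hv).1
          ext v; exact congrArg (fun l : E n →ₗ[ℝ] ℝ => l v) this
        · refine (k4 x hx).2 hxS ?_
          have := half_space (l1 := (fderiv ℝ τ x : E n →ₗ[ℝ] ℝ)) dr' fun v hv => (both v hv).2
          ext v; exact congrArg (fun l : E n →ₗ[ℝ] ℝ => l v) this)
    (fun x hx => by
      by_cases hxD : x ∈ D
      · obtain ⟨χ, sχ, h0, h1, h2⟩ := cutoff hD.isOpen.isClosed_compl (isClosed_singleton (x := x))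
          (disjoint_singleton_right.2 fun h => h hxD)
        rw [nhdsSet_singleton] at h1
        refine ⟨D ∩ {y | χ y = 1}, mem_nhdsWithin_of_mem_nhds
          (inter_mem (hD.isOpen.mem_nhds hxD) h1), χ, sχ, fun y _ => (h2 y).1,
          fun y hy => h0.self_of_nhdsSet y ?_, fun y hy => ⟨fun _ => ?_, fun hS => ?_⟩⟩
        · rw [hD.isOpen.frontier_eq] at hy; exact hy.2
        · rw [show χ y = 1 from hy.2]; exact one_pos
        · rw [hD.isOpen.frontier_eq] at hS; exact (hS.2 hy.1).elim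
      · have hxS : x ∈ frontier D := by rw [hD.isOpen.frontier_eq]; exact ⟨hx, hxD⟩
        obtain ⟨U, hU, r, sr, dr, hr⟩ := hD.boundary x hxS
        obtain ⟨χ, sχ, h0, h1, h2⟩ := cutoff (isOpen_interior (s := U)).isClosed_compl
          (isClosed_singleton (x := x))
          (disjoint_singleton_right.2 fun h => h (mem_interior_iff_mem_nhds.2 hU))
        rw [nhdsSet_singleton] at h1
        have h3 : ∀ᶠ y in 𝓝 x, fderiv ℝ r y ≠ 0 :=
          (sr.continuous_fderiv (by simp)).continuousAt.eventually_ne dr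
        refine ⟨U ∩ {y | (∀ᶠ z in 𝓝 y, χ z = 1) ∧ fderiv ℝ r y ≠ 0}, mem_nhdsWithin_of_mem_nhds
          (inter_mem hU (h1.eventually_nhds.and h3)), fun y => χ y * r y, sχ.mul sr,
          fun y hy => ?_, fun y hy => ?_, fun y hy => ⟨fun hyD => ?_, fun _ => ?_⟩⟩
        · by_cases hyU : y ∈ interior U
          · exact mul_nonneg (h2 y).1 ((hr y (interior_subset hyU)).1 hy).le
          · simp [h0.self_of_nhdsSet y hyU]
        · by_cases hyU : y ∈ interior U
          · simp [bdry_zero hD.isOpen sr hr hy (mem_interior_iff_mem_nhds.1 hyU)]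
          · simp [h0.self_of_nhdsSet y hyU]
        · simpa [hy.2.1.self_of_nhds] using (hr y hy.1).1 hyD
        · have : (fun y => χ y * r y) =ᶠ[𝓝 y] r := by
            filter_upwards [hy.2.1] with z hz
            simp [hz]
          rw [this.fderiv_eq]; exact hy.2.2)
  obtain ⟨ρ, h1, -, h3, h4⟩ := main
  exact ⟨ρ, h1, fun x hx => (h4 x (subset_closure hx)).1 hx,
    fun x hx => ⟨h3 x hx, (h4 x (frontier_subset_closure hx)).2 hx⟩⟩

end Pool.Agent.Lib.RM26
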